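import Mathlib

/-!
# Rational relations in modules over finite commutative groups
-/

set_option autoImplicit false

namespace Pool.Agent.H512.CJ

section fn

variable {D : Type*} [CommGroup D] [Fintype D]

/-- For integral functions on a finite commutative group, a linear relation between translates
holds also for the inverse translates (the operators are normal). -/
theorem adj {ι : Type*} [Fintype ι] (c : ι → ℤ) (a : ι → D) (F : D → ℤ)
    (h : ∀ g, ∑ i, c i * F (g * a i) = 0) (g : D) : ∑ i, c i * F (g * (a i)⁻¹) = 0 := by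
  have swap : ∀ x y : D, ∑ g, F (g * x) * F (g * y) = ∑ g, F (g * x⁻¹) * F (g * y⁻¹) := by
    intro x y
    apply Fintype.sum_equiv (Equiv.mulRight (x * y))
    intro g
    simp only [Equiv.coe_mulRight]
    rw [show g * (x * y) * x⁻¹ = g * y by rw [mul_comm x y]; group,
      show g * (x * y) * y⁻¹ = g * x by group]
    ring
  have h0 : ∑ g, (∑ i, c i * F (g * (a i)⁻¹)) ^ 2 = ∑ g, (∑ i, c i * F (g * a i)) ^ 2 := by
    have e : ∀ b : ι → D, ∑ g, (∑ i, c i * F (g * b i)) ^ 2 =
        ∑ i, ∑ j, c i * c j * ∑ g, F (g * b i) * F (g * b j) := by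
      intro b
      have e1 : ∀ g, (∑ i, c i * F (g * b i)) ^ 2 =
          ∑ i, ∑ j, c i * c j * (F (g * b i) * F (g * b j)) := by
        intro g
        rw [sq, Finset.sum_mul_sum]
        apply Finset.sum_congr rfl
        intro i _
        apply Finset.sum_congr rfl
        intro j _
        ring
      rw [Finset.sum_congr rfl (fun g _ => e1 g), Finset.sum_comm]
      apply Finset.sum_congr rfl
      intro i _
      rw [Finset.sum_comm]
      apply Finset.sum_congr rfl
      intro j _
      rw [Finset.mul_sum]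
    rw [e, e]
    apply Finset.sum_congr rfl
    intro i _
    apply Finset.sum_congr rfl
    intro j _
    rw [swap (a i) (a j)]
  have h1 : ∑ g, (∑ i, c i * F (g * (a i)⁻¹)) ^ 2 = 0 := by
    rw [h0]
    apply Finset.sum_eq_zero
    intro g _
    rw [h g]
    norm_num
  have h2 := (Finset.sum_eq_zero_iff_of_nonneg (fun g _ => sq_nonneg _)).1 h1 g (Finset.mem_univ g)
  exact pow_eq_zero_iff (two_ne_zero) |>.1 h2

/-- A function which changes the sign under the translation by an element of odd order is zero. -/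
theorem anti {E : D → ℤ} {k : D} (hk : Odd (orderOf k)) (h : ∀ g, E (g * k) = -E g) (g : D) :
    E g = 0 := by
  have h1 : ∀ j : ℕ, E (g * k ^ j) = (-1) ^ j * E g := by
    intro j
    induction j with
    | zero => simp
    | succ j ih =>
      rw [pow_succ, ← mul_assoc, h, ih, pow_succ]
      ring
  have h2 := h1 (orderOf k)
  rw [pow_orderOf_eq_one, mul_one, hk.neg_one_pow] at h2
  linarith

/-- Four terms. -/
theorem four {F : D → ℤ} {ρ σ τ : D} (h : ∀ g, F g + F (g * ρ) = F (g * σ) + F (g * τ))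
    (hodd : Odd (orderOf ρ) ∨ Odd (orderOf (σ⁻¹ * τ))) (g : D) :
    F g = F (g * (ρ * σ⁻¹ * τ⁻¹)) := by
  have h1 : ∀ g, F g + F (g * ρ⁻¹) = F (g * σ⁻¹) + F (g * τ⁻¹) := by
    intro g
    have := adj (ι := Fin 4) ![1, 1, -1, -1] ![1, ρ, σ, τ] F (by
      intro g
      simp [Fin.sum_univ_four]
      have := h g
      linarith) g
    simp [Fin.sum_univ_four] at this
    linarith
  set θ := ρ * σ⁻¹ * τ⁻¹ with hθ
  have h2 : ∀ g, F (g * σ) + F (g * τ) = F (g * σ * θ) + F (g * τ * θ) := by
    intro g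
    have h3 := h1 (g * ρ)
    rw [mul_inv_cancel_right] at h3
    have h4 := h g
    have e1 : g * σ * θ = g * ρ * τ⁻¹ := by
      rw [hθ, show g * σ * (ρ * σ⁻¹ * τ⁻¹) = g * ρ * τ⁻¹ * (σ * σ⁻¹) by
        simp only [mul_assoc, mul_comm, mul_left_comm]]
      simp
    have e2 : g * τ * θ = g * ρ * σ⁻¹ := by
      rw [hθ, show g * τ * (ρ * σ⁻¹ * τ⁻¹) = g * ρ * σ⁻¹ * (τ * τ⁻¹) by
        simp only [mul_assoc, mul_comm, mul_left_comm]]
      simp
    rw [e1, e2]
    linarith
  have h5 : ∀ g, (F (g * σ) - F (g * σ * θ)) + (F (g * τ) - F (g * τ * θ)) = 0 := by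
    intro g
    have := h2 g
    linarith
  have key : F g - F (g * θ) = 0 := by
    rcases hodd with ho | ho
    · refine anti (E := fun g => F g - F (g * θ)) ho ?_ g
      intro g
      have h6 := h5 g
      have h7 := h g
      have h8 := h (g * θ)
      have e1 : g * θ * ρ = g * ρ * θ := by rw [mul_right_comm]
      have e2 : g * θ * σ = g * σ * θ := by rw [mul_right_comm]
      have e3 : g * θ * τ = g * τ * θ := by rw [mul_right_comm]
      rw [e1, e2, e3] at h8
      show F (g * ρ) - F (g * ρ * θ) = -(F g - F (g * θ))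
      linarith
    · refine anti (E := fun g => F g - F (g * θ)) ho ?_ g
      intro g
      have h6 := h5 (g * σ⁻¹)
      have e1 : g * σ⁻¹ * σ = g := by group
      rw [e1] at h6
      show F (g * (σ⁻¹ * τ)) - F (g * (σ⁻¹ * τ) * θ) = -(F g - F (g * θ))
      rw [show g * (σ⁻¹ * τ) = g * σ⁻¹ * τ by rw [mul_assoc]]
      linarith
  linarith

end fn

section module

/-- A vector which is not in a saturated lattice is not in the kernel of some functional which
vanishes on the lattice. -/
theorem exists_functional {ι : Type*} [Fintype ι] (Λ : Submodule ℤ (ι → ℤ))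
    (hsat : ∀ (m : ℤ) (n : ι → ℤ), m ≠ 0 → m • n ∈ Λ → n ∈ Λ) {v : ι → ℤ} (hv : v ∉ Λ) :
    ∃ f : (ι → ℤ) →ₗ[ℤ] ℤ, (∀ n ∈ Λ, f n = 0) ∧ f v ≠ 0 := by
  have htf : Module.IsTorsionFree ℤ ((ι → ℤ) ⧸ Λ) := by
    rw [Module.isTorsionFree_iff_smul_eq_zero]
    intro m x hx
    obtain ⟨n, rfl⟩ := Submodule.Quotient.mk_surjective Λ x
    by_cases hm : m = 0
    · exact Or.inl hm
    · right
      rw [← Submodule.Quotient.mk_smul, Submodule.Quotient.mk_eq_zero] at hx
      rw [Submodule.Quotient.mk_eq_zero]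
      exact hsat m n hm hx
  have hfree : Module.Free ℤ ((ι → ℤ) ⧸ Λ) := Module.free_of_finite_type_torsion_free'
  let b := Module.Free.chooseBasis ℤ ((ι → ℤ) ⧸ Λ)
  have h1 : Λ.mkQ v ≠ 0 := by
    rw [Submodule.mkQ_apply, Ne, Submodule.Quotient.mk_eq_zero]
    exact hv
  have h2 : b.repr (Λ.mkQ v) ≠ 0 := fun h => h1 (b.repr.map_eq_zero_iff.1 h)
  obtain ⟨i, hi⟩ := Finsupp.ne_iff.1 h2
  refine ⟨(b.coord i).comp Λ.mkQ, ?_, ?_⟩
  · intro n hn
    rw [LinearMap.comp_apply, Submodule.mkQ_apply, (Submodule.Quotient.mk_eq_zero Λ).2 hn, map_zero]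
  · exact hi

variable {D : Type*} [CommGroup D] [Fintype D] {W : Type*} [AddCommGroup W]

theorem functional_of_ne (htf : ∀ (m : ℤ) (w : W), m ≠ 0 → m • w = 0 → w = 0) (v : D → W) {a b : D}
    (hab : v a ≠ v b) : ∃ F : D → ℤ, F a ≠ F b ∧
      ∀ {ι : Type} [Fintype ι] (c : ι → ℤ) (d : ι → D), ∑ i, c i • v (d i) = 0 →
        ∑ i, c i * F (d i) = 0 := by
  classical
  set Λ : Submodule ℤ (D → ℤ) := LinearMap.ker (Fintype.linearCombination ℤ v) with hΛ
  have hmem : ∀ n, n ∈ Λ ↔ Fintype.linearCombination ℤ v n = 0 := fun n => by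
    rw [hΛ, LinearMap.mem_ker]
  obtain ⟨f, h1, h2⟩ := exists_functional Λ (fun m n hm hn => by
    rw [hmem] at hn ⊢
    rw [map_smul] at hn
    exact htf m _ hm hn) (v := Pi.single a 1 - Pi.single b 1) (by
      rw [hmem, map_sub, Fintype.linearCombination_apply_single, Fintype.linearCombination_apply_single,
        one_smul, one_smul, sub_eq_zero]
      exact hab)
  refine ⟨fun g => f (Pi.single g 1), ?_, ?_⟩
  · intro h
    apply h2
    rw [map_sub]
    simp only at h
    rw [h, sub_self]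
  · intro ι _ c d h
    have h3 := h1 (∑ i, c i • (Pi.single (d i) (1 : ℤ) : D → ℤ)) (by
      rw [hmem, map_sum, ← h]
      apply Finset.sum_congr rfl
      intro i _
      rw [map_smul, Fintype.linearCombination_apply_single, one_smul])
    rw [map_sum] at h3
    rw [← h3]
    apply Finset.sum_congr rfl
    intro i _
    rw [map_smul, smul_eq_mul]

/-- The relation of length four in torsion free modules. -/
theorem four_module (htf : ∀ (m : ℤ) (w : W), m ≠ 0 → m • w = 0 → w = 0) (v : D → W) {ρ σ τ : D}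
    (h : ∀ g, v g + v (g * ρ) = v (g * σ) + v (g * τ))
    (hodd : Odd (orderOf ρ) ∨ Odd (orderOf (σ⁻¹ * τ))) (g : D) :
    v g = v (g * (ρ * σ⁻¹ * τ⁻¹)) := by
  by_contra hne
  obtain ⟨F, h1, h2⟩ := functional_of_ne htf v hne
  apply h1
  refine four (F := F) (fun g => ?_) hodd g
  have h3 := h2 (ι := Fin 4) ![1, 1, -1, -1] ![g, g * ρ, g * σ, g * τ] (by
    simp [Fin.sum_univ_four]
    rw [h g]
    abel)
  simp [Fin.sum_univ_four] at h3
  linarith

end module

end Pool.Agent.H512.CJ
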