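import Pool.Agent.H512.CJ.Mono

/-!
# Matrices of conjugates and constants
-/

set_option autoImplicit false

namespace Pool.Agent.H512.CJ

open Pool.Agent.X148.TR (Two MultE)
open Pool.Agent.E8helper92.PG (Qb mem_Qb LogForms logForms_galois log_galois)

section module

variable {D : Type*} [CommGroup D] [Fintype D] {W : Type*} [AddCommGroup W]

theorem zero_of_functionals (htf : ∀ (m : ℤ) (w : W), m ≠ 0 → m • w = 0 → w = 0) (v : D → W) (g : D)
    (h : ∀ F : D → ℤ, (∀ {κ : Type} [Fintype κ] (c : κ → ℤ) (d : κ → D), ∑ i, c i • v (d i) = 0 →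
      ∑ i, c i * F (d i) = 0) → F g = 0) : v g = 0 := by
  by_contra hne
  obtain ⟨F, h1, h2⟩ := functional htf v (κ := Fin 1) ![1] ![g] (by
    rw [Fin.sum_univ_one]
    show (1 : ℤ) • v g ≠ 0
    rw [one_smul]
    exact hne)
  apply h1
  rw [Fin.sum_univ_one]
  show (1 : ℤ) * F g = 0
  rw [h F h2, mul_zero]

theorem two_module (htf : ∀ (m : ℤ) (w : W), m ≠ 0 → m • w = 0 → w = 0) (v : D → W) {ρ : D}
    (h : ∀ g, v g + v (g * ρ) = 0) (hodd : Odd (orderOf ρ)) (g : D) : v g = 0 := by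
  apply zero_of_functionals htf v g
  intro F hF
  refine anti hodd (fun g => ?_) g
  have := hF (κ := Fin 2) ![1, 1] ![g, g * ρ] (by
    rw [Fin.sum_univ_two]
    show (1 : ℤ) • v g + (1 : ℤ) • v (g * ρ) = 0
    rw [one_smul, one_smul]
    exact h g)
  rw [Fin.sum_univ_two] at this
  have h1 : 1 * F g + 1 * F (g * ρ) = 0 := this
  linarith

theorem three_module (htf : ∀ (m : ℤ) (w : W), m ≠ 0 → m • w = 0 → w = 0) (v : D → W) {ρ σ : D}
    (hinj : ∀ a b, v a = v b → a = b) (h : ∀ g, v g + v (g * ρ) = v (g * σ))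
    (hodd : ∀ k : D, Odd (orderOf k)) (g : D) : v g = 0 := by
  have hrel : ∀ F : D → ℤ, (∀ {κ : Type} [Fintype κ] (c : κ → ℤ) (d : κ → D), ∑ i, c i • v (d i) = 0 →
      ∑ i, c i * F (d i) = 0) → ∀ g, F g + F (g * ρ) = F (g * σ) := by
    intro F hF g
    have := hF (κ := Fin 3) ![1, 1, -1] ![g, g * ρ, g * σ] (by
      rw [Fin.sum_univ_three]
      show (1 : ℤ) • v g + (1 : ℤ) • v (g * ρ) + (-1 : ℤ) • v (g * σ) = 0
      rw [one_smul, one_smul, neg_one_smul, h g]
      abel)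
    rw [Fin.sum_univ_three] at this
    have h1 : 1 * F g + 1 * F (g * ρ) + (-1) * F (g * σ) = 0 := this
    linarith
  have hρ : v σ = v (ρ * σ⁻¹) := by
    by_contra hne
    obtain ⟨F, h1, h2⟩ := functional_of_ne htf v hne
    apply h1
    have h3 := hrel F h2
    have h4 := adj (ι := Fin 3) ![1, 1, -1] ![1, ρ, σ] F (by
      intro g
      rw [Fin.sum_univ_three]
      show 1 * F (g * 1) + 1 * F (g * ρ) + (-1) * F (g * σ) = 0
      have := h3 g
      rw [mul_one]
      linarith) ρ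
    rw [Fin.sum_univ_three] at h4
    have h5 : 1 * F (ρ * 1⁻¹) + 1 * F (ρ * ρ⁻¹) + (-1) * F (ρ * σ⁻¹) = 0 := h4
    rw [inv_one, mul_one, mul_inv_cancel] at h5
    have h6 := h3 1
    rw [one_mul, one_mul] at h6
    linarith
  have hρ' : ρ = σ * σ := by
    have := hinj _ _ hρ
    rw [eq_mul_inv_iff_mul_eq] at this
    exact this.symm
  apply zero_of_functionals htf v g
  intro F hF
  have h3 := hrel F hF
  refine anti (k := σ * σ * σ) (hodd _) (fun g => ?_) g
  have h4 := h3 g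
  have h5 := h3 (g * σ)
  rw [hρ'] at h4 h5
  rw [show g * σ * (σ * σ) = g * (σ * σ * σ) by simp only [mul_assoc], mul_assoc g σ σ] at h5
  linarith

end module

section field

variable {p : ℕ} [hp : Fact p.Prime] {K : IntermediateField ℚ_[p] (PadicAlgCl p)}
  {F : IntermediateField K (PadicAlgCl p)}

theorem vv_inj {x : F} (hx0 : x ≠ 0)
    (h1 : ∀ g : F ≃ₐ[K] F, g ≠ 1 → LinearIndependent (Qb p) ![(x : PadicAlgCl p), ((g x : F) : PadicAlgCl p)])
    (a b : F ≃ₐ[K] F) (hab' : vv (Units.mk0 x hx0) a = vv (Units.mk0 x hx0) b) : a = b := by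
  by_contra hne
  rw [vv_eq] at hab'
  have h3 := alg_gal a⁻¹ (z := (a x)⁻¹ * b x) hab'
  have h4 : a⁻¹ ((a x)⁻¹ * b x) = x⁻¹ * (a⁻¹ * b) x := by
    have ha : a⁻¹ (a x) = x := by
      show (a⁻¹ * a) x = x
      rw [inv_mul_cancel]
      rfl
    rw [map_mul, map_inv₀, ha]
    rfl
  rw [h4] at h3
  exact dep_of_alg hx0 h3 (h1 (a⁻¹ * b) (fun e => hne (inv_mul_eq_one.1 e)))

/-- The base of an entry: a conjugate of `x`, or `1`. -/
noncomputable def base (x : Fˣ) : Option (F ≃ₐ[K] F) → Fˣ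
  | none => 1
  | some g => Units.map (g : F →* F) x

theorem cl_base_none (x : Fˣ) : cl (base (K := K) x none) = 0 := rfl

theorem cl_base_some (x : Fˣ) (g : F ≃ₐ[K] F) : cl (base x (some g)) = vv x g := rfl

theorem opt_core {V : Submodule (Qb p) (PadicAlgCl p)} (hV : Two V)
    (hσ : ∀ σ : PadicAlgCl p ≃ₐ[ℚ_[p]] PadicAlgCl p, ∀ v ∈ V, σ v ∈ V) [FiniteDimensional K F]
    (hab : ∀ g h : F ≃ₐ[K] F, g * h = h * g) {x : F} (hx0 : x ≠ 0) (hx : (x : PadicAlgCl p) ∈ V)
    (hxt : Transcendental ℚ (x : PadicAlgCl p))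
    (h1 : ∀ g : F ≃ₐ[K] F, g ≠ 1 → LinearIndependent (Qb p) ![(x : PadicAlgCl p), ((g x : F) : PadicAlgCl p)])
    (h2 : ∀ g : F ≃ₐ[K] F, g * g ≠ 1 → LinearIndependent (Qb p) ![(x : PadicAlgCl p),
      ((g x : F) : PadicAlgCl p), ((g (g x) : F) : PadicAlgCl p)])
    (hodd : ∀ g : F ≃ₐ[K] F, Odd (orderOf g)) (a b c d : Option (F ≃ₐ[K] F))
    (h : cl (base (Units.mk0 x hx0) a) + cl (base (Units.mk0 x hx0) d) =
      cl (base (Units.mk0 x hx0) b) + cl (base (Units.mk0 x hx0) c)) :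
    (a = b ∧ d = c) ∨ (a = c ∧ d = b) := by
  classical
  let _ : CommGroup (F ≃ₐ[K] F) := { (inferInstance : Group (F ≃ₐ[K] F)) with mul_comm := hab }
  have inj := vv_inj hx0 h1
  have nz : ∀ g : F ≃ₐ[K] F, vv (Units.mk0 x hx0) g ≠ 0 := by
    intro g hg
    have h3 : cl (Units.map (g : F →* F) (Units.mk0 x hx0)) = 0 := hg
    rw [cl_eq_zero] at h3
    have h4 := alg_gal g⁻¹ (z := g x) h3
    have h5 : g⁻¹ (g x) = x := by
      show (g⁻¹ * g) x = x
      rw [inv_mul_cancel]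
      rfl
    rw [h5] at h4
    exact hxt h4
  have shift2 : ∀ {g k : F ≃ₐ[K] F}, vv (Units.mk0 x hx0) g + vv (Units.mk0 x hx0) k = 0 → False := by
    intro g k hgk
    have h3 : ∀ s : F ≃ₐ[K] F, vv (Units.mk0 x hx0) (s * g) + vv (Units.mk0 x hx0) (s * k) = 0 := by
      intro s
      have h4 : cl (Units.map (g : F →* F) (Units.mk0 x hx0) * Units.map (k : F →* F) (Units.mk0 x hx0)) = 0 :=
        hgk
      rw [cl_eq_zero] at h4
      have h5 := alg_gal s (z := g x * k x) h4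
      have h6 : cl (Units.map ((s * g : F ≃ₐ[K] F) : F →* F) (Units.mk0 x hx0) *
          Units.map ((s * k : F ≃ₐ[K] F) : F →* F) (Units.mk0 x hx0)) = 0 := by
        rw [cl_eq_zero]
        have h7 : s (g x * k x) = (s * g) x * (s * k) x := map_mul s _ _
        rw [h7] at h5
        exact h5
      exact h6
    refine nz 1 (two_module torsion_free (vv (Units.mk0 x hx0)) (ρ := g⁻¹ * k) (fun s => ?_) (hodd _) 1)
    have h8 := h3 (s * g⁻¹)
    rwa [inv_mul_cancel_right, mul_assoc] at h8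
  have shift3 : ∀ {g k l : F ≃ₐ[K] F},
      vv (Units.mk0 x hx0) g + vv (Units.mk0 x hx0) k = vv (Units.mk0 x hx0) l → False := by
    intro g k l hgk
    have h3 : ∀ s : F ≃ₐ[K] F, vv (Units.mk0 x hx0) (s * g) + vv (Units.mk0 x hx0) (s * k) =
        vv (Units.mk0 x hx0) (s * l) := by
      intro s
      have h4 : cl (Units.map (g : F →* F) (Units.mk0 x hx0) * Units.map (k : F →* F) (Units.mk0 x hx0)) =
        cl (Units.map (l : F →* F) (Units.mk0 x hx0)) := hgk
      rw [cl_eq] at h4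
      have h5 := alg_gal s (z := (g x * k x)⁻¹ * l x) h4
      have h6 : cl (Units.map ((s * g : F ≃ₐ[K] F) : F →* F) (Units.mk0 x hx0) *
          Units.map ((s * k : F ≃ₐ[K] F) : F →* F) (Units.mk0 x hx0)) =
          cl (Units.map ((s * l : F ≃ₐ[K] F) : F →* F) (Units.mk0 x hx0)) := by
        rw [cl_eq]
        have h7 : s ((g x * k x)⁻¹ * l x) = ((s * g) x * (s * k) x)⁻¹ * (s * l) x := by
          rw [map_mul, map_inv₀, map_mul]
          rfl
        rw [h7] at h5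
        exact h5
      exact h6
    refine nz 1 (three_module torsion_free (vv (Units.mk0 x hx0)) (ρ := g⁻¹ * k) (σ := g⁻¹ * l) inj
      (fun s => ?_) hodd 1)
    have h8 := h3 (s * g⁻¹)
    rwa [inv_mul_cancel_right, mul_assoc, mul_assoc] at h8
  have z1 : ∀ w : WF F, 0 + w = w := fun w => zero_add w
  have z2 : ∀ w : WF F, w + 0 = w := fun w => add_zero w
  rcases a with _ | a <;> rcases b with _ | b <;> rcases c with _ | c <;> rcases d with _ | d <;>
    simp only [cl_base_none, cl_base_some, z1, z2] at h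
  · exact Or.inl ⟨rfl, rfl⟩
  · exact absurd h (nz _)
  · exact absurd h.symm (nz _)
  · exact Or.inl ⟨rfl, by rw [inj _ _ h]⟩
  · exact absurd h.symm (nz _)
  · exact Or.inr ⟨rfl, by rw [inj _ _ h]⟩
  · exact (shift2 h.symm).elim
  · exact (shift3 h.symm).elim
  · exact absurd h (nz _)
  · exact (shift2 h).elim
  · exact Or.inr ⟨by rw [inj _ _ h], rfl⟩
  · exact (shift3 h).elim
  · exact Or.inl ⟨by rw [inj _ _ h], rfl⟩
  · exact (shift3 h).elim
  · exact (shift3 h.symm).elim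
  · have ne : ∀ g : F ≃ₐ[K] F, g x ≠ 0 := fun g => (map_ne_zero g).2 hx0
    have h3 := vv_shift h a⁻¹
    rw [inv_mul_cancel] at h3
    have h4 := vv_rel.1 h3
    have h5 := core hV hσ hab hx0 hx h1 h2 (a⁻¹ * d) (a⁻¹ * b) (a⁻¹ * c)
      (x⁻¹ * ((a⁻¹ * d) x)⁻¹ * ((a⁻¹ * b) x * (a⁻¹ * c) x)) h4 (by
        have h6 := ne (a⁻¹ * d)
        field_simp) (Or.inl (hodd _))
    rcases h5 with ⟨h6, h7⟩ | ⟨h6, h7⟩
    · left
      exact ⟨by rw [inv_mul_eq_one.1 h6], by rw [mul_left_cancel h7]⟩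
    · right
      exact ⟨by rw [inv_mul_eq_one.1 h6], by rw [mul_left_cancel h7]⟩

/-- Two by two matrices of algebraic multiples of four numbers. -/
theorem gen {ya yb yc yd : PadicAlgCl p} (na : ya ≠ 0) (nb : yb ≠ 0) (nc : yc ≠ 0) (nd : yd ≠ 0)
    (α β γ δ : Qb p)
    (hcomb : IsAlgebraic ℚ (ya⁻¹ * yd⁻¹ * (yb * yc)) → (ya = yb ∧ yd = yc) ∨ (ya = yc ∧ yd = yb))
    (hrow : LinearIndependent (Qb p) ![![α • ya, β • yb], ![γ • yc, δ • yd]])
    (hcol : LinearIndependent (Qb p) ![![α • ya, γ • yc], ![β • yb, δ • yd]]) :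
    (α • ya) * (δ • yd) ≠ (β • yb) * (γ • yc) := by
  intro hdet
  rw [LinearIndependent.pair_iff] at hrow hcol
  have sm : ∀ (c : Qb p) (z : PadicAlgCl p), c • z = (c : PadicAlgCl p) * z := fun c z => rfl
  simp only [sm] at hdet
  have hα : α ≠ 0 := by
    rintro rfl
    have h0 : (β : PadicAlgCl p) * (γ : PadicAlgCl p) = 0 := by
      have h3 : (β : PadicAlgCl p) * (γ : PadicAlgCl p) * (yb * yc) = 0 := by
        have h4 : ((0 : Qb p) : PadicAlgCl p) = 0 := rfl
        rw [h4] at hdet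
        linear_combination -hdet
      exact (mul_eq_zero.1 h3).resolve_right (mul_ne_zero nb nc)
    rcases mul_eq_zero.1 h0 with h3 | h3
    · have h5 : β = 0 := Subtype.ext h3
      have := (hrow 1 0 (by
        subst h5
        ext j
        fin_cases j <;> simp)).1
      exact one_ne_zero this
    · have h5 : γ = 0 := Subtype.ext h3
      have := (hcol 1 0 (by
        subst h5
        ext j
        fin_cases j <;> simp)).1
      exact one_ne_zero this
  have hδ : δ ≠ 0 := by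
    rintro rfl
    have h0 : (β : PadicAlgCl p) * (γ : PadicAlgCl p) = 0 := by
      have h3 : (β : PadicAlgCl p) * (γ : PadicAlgCl p) * (yb * yc) = 0 := by
        have h4 : ((0 : Qb p) : PadicAlgCl p) = 0 := rfl
        rw [h4] at hdet
        linear_combination -hdet
      exact (mul_eq_zero.1 h3).resolve_right (mul_ne_zero nb nc)
    rcases mul_eq_zero.1 h0 with h3 | h3
    · have h5 : β = 0 := Subtype.ext h3
      have := (hcol 0 1 (by
        subst h5
        ext j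
        fin_cases j <;> simp)).2
      exact one_ne_zero this
    · have h5 : γ = 0 := Subtype.ext h3
      have := (hrow 0 1 (by
        subst h5
        ext j
        fin_cases j <;> simp)).2
      exact one_ne_zero this
  have hα' : (α : PadicAlgCl p) ≠ 0 := fun e => hα (Subtype.ext e)
  have hδ' : (δ : PadicAlgCl p) ≠ 0 := fun e => hδ (Subtype.ext e)
  have hβγ : (β : PadicAlgCl p) * (γ : PadicAlgCl p) ≠ 0 := by
    intro h0
    have h3 : (α : PadicAlgCl p) * (δ : PadicAlgCl p) * (ya * yd) = 0 := by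
      linear_combination hdet + (yb * yc) * h0
    exact mul_ne_zero (mul_ne_zero hα' hδ') (mul_ne_zero na nd) h3
  have hβ : (β : PadicAlgCl p) ≠ 0 := left_ne_zero_of_mul hβγ
  have hγ : (γ : PadicAlgCl p) ≠ 0 := right_ne_zero_of_mul hβγ
  have hκe : ya⁻¹ * yd⁻¹ * (yb * yc) = (α : PadicAlgCl p) * δ * ((β : PadicAlgCl p) * γ)⁻¹ := by
    field_simp
    linear_combination -hdet
  have hκa : IsAlgebraic ℚ (ya⁻¹ * yd⁻¹ * (yb * yc)) := by
    rw [hκe]
    exact ((mem_Qb.1 α.2).mul (mem_Qb.1 δ.2)).mul (((mem_Qb.1 β.2).mul (mem_Qb.1 γ.2)).inv)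
  have hneg : ((-α : Qb p) : PadicAlgCl p) = -(α : PadicAlgCl p) := rfl
  rcases hcomb hκa with ⟨rfl, rfl⟩ | ⟨rfl, rfl⟩
  · have h5 : (α : PadicAlgCl p) * δ = β * γ := by
      apply mul_right_cancel₀ (mul_ne_zero na nd)
      linear_combination hdet
    have := (hcol β (-α) (by
      ext j
      fin_cases j
      · show (β : PadicAlgCl p) * ((α : PadicAlgCl p) * ya) +
          ((-α : Qb p) : PadicAlgCl p) * ((β : PadicAlgCl p) * ya) = 0
        rw [hneg]
        ring
      · show (β : PadicAlgCl p) * ((γ : PadicAlgCl p) * yd) +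
          ((-α : Qb p) : PadicAlgCl p) * ((δ : PadicAlgCl p) * yd) = 0
        rw [hneg]
        linear_combination (-yd) * h5)).2
    exact hα (neg_eq_zero.1 this)
  · have h5 : (α : PadicAlgCl p) * δ = β * γ := by
      apply mul_right_cancel₀ (mul_ne_zero na nd)
      linear_combination hdet
    have := (hrow γ (-α) (by
      ext j
      fin_cases j
      · show (γ : PadicAlgCl p) * ((α : PadicAlgCl p) * ya) +
          ((-α : Qb p) : PadicAlgCl p) * ((γ : PadicAlgCl p) * ya) = 0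
        rw [hneg]
        ring
      · show (γ : PadicAlgCl p) * ((β : PadicAlgCl p) * yd) +
          ((-α : Qb p) : PadicAlgCl p) * ((δ : PadicAlgCl p) * yd) = 0
        rw [hneg]
        linear_combination (-yd) * h5)).2
    exact hα (neg_eq_zero.1 this)

/-- `1` or a conjugate of `x`. -/
noncomputable def entry (x : F) : Option (F ≃ₐ[K] F) → PadicAlgCl p
  | none => 1
  | some g => ((g x : F) : PadicAlgCl p)

theorem entry_eq {x : F} (hx0 : x ≠ 0) (o : Option (F ≃ₐ[K] F)) :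
    entry x o = ((base (Units.mk0 x hx0) o : F) : PadicAlgCl p) := by
  rcases o with _ | g
  · rfl
  · rfl

theorem entry_ne {x : F} (hx0 : x ≠ 0) (o : Option (F ≃ₐ[K] F)) : entry x o ≠ 0 := by
  rw [entry_eq hx0]
  intro e
  exact Units.ne_zero (base (Units.mk0 x hx0) o) (Subtype.ext e)

theorem cl_four {u w y z : Fˣ} : cl u + cl w = cl y + cl z ↔
    IsAlgebraic ℚ (((u : F) : PadicAlgCl p)⁻¹ * ((w : F) : PadicAlgCl p)⁻¹ *
      (((y : F) : PadicAlgCl p) * ((z : F) : PadicAlgCl p))) := by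
  rw [← cl_mul, ← cl_mul, cl_eq]
  have e : ∀ a b : Fˣ, (((a * b : Fˣ) : F) : PadicAlgCl p) = ((a : F) : PadicAlgCl p) * ((b : F) : PadicAlgCl p) :=
    fun a b => rfl
  rw [e, e, mul_inv]

theorem matrix_opt {V : Submodule (Qb p) (PadicAlgCl p)} (hV : Two V)
    (hσ : ∀ σ : PadicAlgCl p ≃ₐ[ℚ_[p]] PadicAlgCl p, ∀ v ∈ V, σ v ∈ V) [FiniteDimensional K F]
    (hab : ∀ g h : F ≃ₐ[K] F, g * h = h * g) {x : F} (hx : (x : PadicAlgCl p) ∈ V)
    (hxt : Transcendental ℚ (x : PadicAlgCl p))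
    (h1 : ∀ g : F ≃ₐ[K] F, g ≠ 1 → LinearIndependent (Qb p) ![(x : PadicAlgCl p), ((g x : F) : PadicAlgCl p)])
    (h2 : ∀ g : F ≃ₐ[K] F, g * g ≠ 1 → LinearIndependent (Qb p) ![(x : PadicAlgCl p),
      ((g x : F) : PadicAlgCl p), ((g (g x) : F) : PadicAlgCl p)])
    (hodd : Odd (Nat.card (F ≃ₐ[K] F))) (a b c d : Option (F ≃ₐ[K] F)) (α β γ δ : Qb p)
    (hrow : LinearIndependent (Qb p) ![![α • entry x a, β • entry x b], ![γ • entry x c, δ • entry x d]])
    (hcol : LinearIndependent (Qb p) ![![α • entry x a, γ • entry x c], ![β • entry x b, δ • entry x d]]) :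
    (α • entry x a) * (δ • entry x d) ≠ (β • entry x b) * (γ • entry x c) := by
  have hx0 : x ≠ 0 := by
    rintro rfl
    exact hxt isAlgebraic_zero
  have hodd' : ∀ g : F ≃ₐ[K] F, Odd (orderOf g) := fun g =>
    Odd.of_dvd_nat hodd (orderOf_dvd_natCard g)
  refine gen (entry_ne hx0 a) (entry_ne hx0 b) (entry_ne hx0 c) (entry_ne hx0 d) α β γ δ ?_ hrow hcol
  intro h
  have h' : IsAlgebraic ℚ (((base (Units.mk0 x hx0) a : F) : PadicAlgCl p)⁻¹ *
      ((base (Units.mk0 x hx0) d : F) : PadicAlgCl p)⁻¹ *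
      (((base (Units.mk0 x hx0) b : F) : PadicAlgCl p) * ((base (Units.mk0 x hx0) c : F) : PadicAlgCl p))) := by
    rw [← entry_eq, ← entry_eq, ← entry_eq, ← entry_eq]
    exact h
  rcases opt_core hV hσ hab hx0 hx hxt h1 h2 hodd' a b c d (cl_four.2 h') with ⟨rfl, rfl⟩ | ⟨rfl, rfl⟩
  · exact Or.inl ⟨rfl, rfl⟩
  · exact Or.inr ⟨rfl, rfl⟩

theorem log_transc {L : PadicAlgCl p → PadicAlgCl p} (hL : Pool.Agent.W245.PB.IsIwasawaLog p L)
    {a : PadicAlgCl p} (ha0 : a ≠ 0) (ha : IsAlgebraic ℚ a) (h : L a ≠ 0) : Transcendental ℚ (L a) := by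
  intro halg
  have h1 := (Pool.Agent.W245.PB.brumer hL (ι := Fin 1) (fun _ => a) (fun _ => ha0) (fun _ => ha)
    (LinearIndependent.of_subsingleton 0 h) (-L a) halg.neg (fun _ => 1) (fun _ => isAlgebraic_one) (by
      rw [Fin.sum_univ_one]
      ring)).2 0
  exact one_ne_zero h1

end field

end Pool.Agent.H512.CJ
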