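import Pool.Agent.H512.CJ.Main

/-!
# Products of two conjugates of a linear form in `p`-adic logarithms: the main step
-/

set_option autoImplicit false

namespace Pool.Agent.H512.CJ

open Pool.Agent.X148.TR (Two MultE)
open Pool.Agent.E8helper92.PG (Qb mem_Qb)

variable {p : ℕ} [hp : Fact p.Prime] {K : IntermediateField ℚ_[p] (PadicAlgCl p)}
  {F : IntermediateField K (PadicAlgCl p)}

theorem normal_K : Normal K (PadicAlgCl p) := by
  have h : Normal ℚ_[p] (PadicAlgCl p) := IsAlgClosure.normal ℚ_[p] (PadicAlgCl p)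
  exact Normal.tower_top_of_normal ℚ_[p] K (PadicAlgCl p)

theorem conj_mem {V : Submodule (Qb p) (PadicAlgCl p)}
    (hσ : ∀ σ : PadicAlgCl p ≃ₐ[ℚ_[p]] PadicAlgCl p, ∀ v ∈ V, σ v ∈ V) {x : F}
    (hx : (x : PadicAlgCl p) ∈ V) (g : F ≃ₐ[K] F) : ((g x : F) : PadicAlgCl p) ∈ V := by
  have := normal_K (p := p) (K := K)
  have h1 := hσ ((g.liftNormal (PadicAlgCl p)).restrictScalars ℚ_[p]) _ hx
  have h2 : ((g.liftNormal (PadicAlgCl p)).restrictScalars ℚ_[p]) (x : PadicAlgCl p) =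
      ((g x : F) : PadicAlgCl p) := g.liftNormal_commutes (PadicAlgCl p) x
  rwa [h2] at h1

theorem smul_mem_of_alg {V : Submodule (Qb p) (PadicAlgCl p)} {κ v : PadicAlgCl p}
    (hκ : IsAlgebraic ℚ κ) (hv : v ∈ V) : κ * v ∈ V := by
  have h : κ * v = (⟨κ, mem_Qb.2 hκ⟩ : Qb p) • v := rfl
  rw [h]
  exact V.smul_mem _ hv

/-- The consequence of the strong six exponentials theorem. -/
theorem three {V : Submodule (Qb p) (PadicAlgCl p)} (hV : Two V) {s : PadicAlgCl p}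
    (hs : LinearIndependent (Qb p) ![1, s]) (z : Fin 3 → PadicAlgCl p) (hz : LinearIndependent (Qb p) z)
    (h1 : ∀ i, z i ∈ V) (h2 : ∀ i, s * z i ∈ V) : False := by
  have h3 : ∀ i, z i ∈ MultE ![1, s] V := by
    intro i j
    fin_cases j
    · show 1 * z i ∈ V
      rw [one_mul]
      exact h1 i
    · exact h2 i
  have h4 : LinearIndependent (Qb p) (fun i => (⟨z i, h3 i⟩ : MultE ![1, s] V)) := by
    apply LinearIndependent.of_comp (MultE ![1, s] V).subtype
    exact hz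
  have h5 := h4.cardinal_le_rank
  have h6 := h5.trans (hV s hs)
  rw [Cardinal.mk_fin] at h6
  have h7 : (3 : ℕ) ≤ 2 := by exact_mod_cast h6
  omega

theorem pair_one {x y : PadicAlgCl p} (hx : x ≠ 0) (h : LinearIndependent (Qb p) ![x, y]) :
    LinearIndependent (Qb p) ![1, y / x] := by
  rw [LinearIndependent.pair_iff] at h ⊢
  intro a b hab
  apply h a b
  have h1 : x * (a • (1 : PadicAlgCl p) + b • (y / x)) = a • x + b • y := by
    rw [Algebra.smul_def, Algebra.smul_def, Algebra.smul_def, Algebra.smul_def]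
    field_simp
  rw [← h1, hab, mul_zero]

/-- The relation `x · σ τ x = κ σ x · τ x`. -/
theorem six {V : Submodule (Qb p) (PadicAlgCl p)} (hV : Two V)
    (hσ : ∀ σ : PadicAlgCl p ≃ₐ[ℚ_[p]] PadicAlgCl p, ∀ v ∈ V, σ v ∈ V) {x : F} (hx0 : x ≠ 0)
    (hx : (x : PadicAlgCl p) ∈ V) (σ τ : F ≃ₐ[K] F) (κ : F) (hκ : IsAlgebraic ℚ (κ : PadicAlgCl p))
    (h : κ * (x * σ (τ x)) = σ x * τ x)
    (hτ : LinearIndependent (Qb p) ![(x : PadicAlgCl p), ((τ x : F) : PadicAlgCl p)])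
    (h3 : LinearIndependent (Qb p) ![(x : PadicAlgCl p), ((σ x : F) : PadicAlgCl p),
      ((σ (σ x) : F) : PadicAlgCl p)]) : False := by
  have hx0' : (x : PadicAlgCl p) ≠ 0 := fun e => hx0 (Subtype.ext e)
  have ne : ∀ g : F ≃ₐ[K] F, g x ≠ 0 := fun g => (map_ne_zero g).2 hx0
  refine three hV (pair_one hx0' hτ) _ h3 ?_ ?_
  · intro i
    fin_cases i
    · exact hx
    · exact conj_mem hσ hx σ
    · exact conj_mem hσ hx (σ * σ)
  · intro i
    fin_cases i
    · show ((τ x : F) : PadicAlgCl p) / (x : PadicAlgCl p) * (x : PadicAlgCl p) ∈ V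
      rw [div_mul_cancel₀ _ hx0']
      exact conj_mem hσ hx τ
    · show ((τ x : F) : PadicAlgCl p) / (x : PadicAlgCl p) * ((σ x : F) : PadicAlgCl p) ∈ V
      have e : τ x / x * σ x = κ * σ (τ x) := by
        rw [div_mul_eq_mul_div, div_eq_iff hx0]
        linear_combination -h
      have e' : ((τ x : F) : PadicAlgCl p) / (x : PadicAlgCl p) * ((σ x : F) : PadicAlgCl p) =
          (κ : PadicAlgCl p) * ((σ (τ x) : F) : PadicAlgCl p) := congrArg Subtype.val e
      rw [e']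
      exact smul_mem_of_alg hκ (conj_mem hσ hx (σ * τ))
    · show ((τ x : F) : PadicAlgCl p) / (x : PadicAlgCl p) * ((σ (σ x) : F) : PadicAlgCl p) ∈ V
      have h' : σ κ * (σ x * σ (σ (τ x))) = σ (σ x) * σ (τ x) := by
        have := congrArg σ h
        rwa [map_mul, map_mul, map_mul] at this
      have e : τ x / x * σ (σ x) = κ * (σ κ * σ (σ (τ x))) := by
        rw [div_mul_eq_mul_div, div_eq_iff hx0]
        apply mul_left_cancel₀ (ne σ)
        linear_combination (-(σ (σ x))) * h - (κ * x) * h'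
      have e' : ((τ x : F) : PadicAlgCl p) / (x : PadicAlgCl p) * ((σ (σ x) : F) : PadicAlgCl p) =
          (κ : PadicAlgCl p) * (((σ κ : F) : PadicAlgCl p) * ((σ (σ (τ x)) : F) : PadicAlgCl p)) :=
        congrArg Subtype.val e
      rw [e']
      exact smul_mem_of_alg hκ (smul_mem_of_alg (alg_gal σ hκ) (conj_mem hσ hx (σ * (σ * τ))))

theorem dep_of_alg {x : F} (hx0 : x ≠ 0) {g : F ≃ₐ[K] F}
    (h : IsAlgebraic ℚ ((x : PadicAlgCl p)⁻¹ * ((g x : F) : PadicAlgCl p))) :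
    ¬ LinearIndependent (Qb p) ![(x : PadicAlgCl p), ((g x : F) : PadicAlgCl p)] := by
  intro hli
  rw [LinearIndependent.pair_iff] at hli
  have hx0' : (x : PadicAlgCl p) ≠ 0 := fun e => hx0 (Subtype.ext e)
  have h1 := hli ⟨_, mem_Qb.2 h⟩ (-1) (by
    rw [Algebra.smul_def, neg_one_smul]
    show (x : PadicAlgCl p)⁻¹ * ((g x : F) : PadicAlgCl p) * (x : PadicAlgCl p) + -((g x : F) : PadicAlgCl p) = 0
    field_simp
    ring)
  have h2 : (-1 : Qb p) = 0 := h1.2
  exact one_ne_zero (neg_eq_zero.1 h2)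

/-- **The main step.** -/
theorem core {V : Submodule (Qb p) (PadicAlgCl p)} (hV : Two V)
    (hσ : ∀ σ : PadicAlgCl p ≃ₐ[ℚ_[p]] PadicAlgCl p, ∀ v ∈ V, σ v ∈ V) [FiniteDimensional K F]
    (hab : ∀ g h : F ≃ₐ[K] F, g * h = h * g) {x : F} (hx0 : x ≠ 0) (hx : (x : PadicAlgCl p) ∈ V)
    (h1 : ∀ g : F ≃ₐ[K] F, g ≠ 1 → LinearIndependent (Qb p) ![(x : PadicAlgCl p), ((g x : F) : PadicAlgCl p)])
    (h2 : ∀ g : F ≃ₐ[K] F, g * g ≠ 1 → LinearIndependent (Qb p) ![(x : PadicAlgCl p),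
      ((g x : F) : PadicAlgCl p), ((g (g x) : F) : PadicAlgCl p)])
    (ρ σ τ : F ≃ₐ[K] F) (κ : F) (hκ : IsAlgebraic ℚ (κ : PadicAlgCl p))
    (h : κ * (x * ρ x) = σ x * τ x) (hodd : Odd (orderOf ρ) ∨ Odd (orderOf (σ⁻¹ * τ))) :
    (σ = 1 ∧ ρ = τ) ∨ (τ = 1 ∧ ρ = σ) := by
  classical
  let _ : CommGroup (F ≃ₐ[K] F) := { (inferInstance : Group (F ≃ₐ[K] F)) with mul_comm := hab }
  have ne : ∀ g : F ≃ₐ[K] F, g x ≠ 0 := fun g => (map_ne_zero g).2 hx0
  have inj : ∀ a b : F ≃ₐ[K] F, vv (Units.mk0 x hx0) a = vv (Units.mk0 x hx0) b → a = b := by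
    intro a b hab'
    by_contra hne
    rw [vv_eq] at hab'
    have h3 := alg_gal a⁻¹ (z := (a x)⁻¹ * b x) hab'
    have h4 : a⁻¹ ((a x)⁻¹ * b x) = x⁻¹ * (a⁻¹ * b) x := by
      have ha : a⁻¹ (a x) = x := by
        show (a⁻¹ * a) x = x
        rw [inv_mul_cancel]
        rfl
      rw [map_mul, map_inv₀, ha]
      rfl
    rw [h4] at h3
    exact dep_of_alg hx0 h3 (h1 (a⁻¹ * b) (fun e => hne (inv_mul_eq_one.1 e)))
  have hrel : vv (Units.mk0 x hx0) 1 + vv (Units.mk0 x hx0) ρ =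
      vv (Units.mk0 x hx0) σ + vv (Units.mk0 x hx0) τ := by
    rw [vv_rel]
    have e : (((1 : F ≃ₐ[K] F) x : F))⁻¹ * (ρ x)⁻¹ * (σ x * τ x) = κ := by
      rw [← h]
      have h5 := ne ρ
      show x⁻¹ * (ρ x)⁻¹ * (κ * (x * ρ x)) = κ
      field_simp
    have e' : ((((1 : F ≃ₐ[K] F) x : F) : PadicAlgCl p))⁻¹ * ((ρ x : F) : PadicAlgCl p)⁻¹ *
        (((σ x : F) : PadicAlgCl p) * ((τ x : F) : PadicAlgCl p)) = (κ : PadicAlgCl p) :=
      congrArg Subtype.val e
    have e2 : IsAlgebraic ℚ (((((1 : F ≃ₐ[K] F) x : F) : PadicAlgCl p))⁻¹ * ((ρ x : F) : PadicAlgCl p)⁻¹ *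
        (((σ x : F) : PadicAlgCl p) * ((τ x : F) : PadicAlgCl p))) := by
      rw [e']
      exact hκ
    exact e2
  have hshift : ∀ g, vv (Units.mk0 x hx0) g + vv (Units.mk0 x hx0) (g * ρ) =
      vv (Units.mk0 x hx0) (g * σ) + vv (Units.mk0 x hx0) (g * τ) := by
    intro g
    have := vv_shift hrel g
    rwa [mul_one] at this
  have h6 := four_module torsion_free (vv (Units.mk0 x hx0)) hshift hodd 1
  have h7 := inj _ _ h6
  have h8 : ρ = σ * τ := by
    rw [one_mul] at h7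
    have h9 : ρ * σ⁻¹ * τ⁻¹ * τ * σ = τ * σ := by rw [← h7, one_mul]
    rw [inv_mul_cancel_right, inv_mul_cancel_right] at h9
    rw [h9, mul_comm]
  by_cases hs : σ = 1
  · left
    exact ⟨hs, by rw [h8, hs, one_mul]⟩
  by_cases ht : τ = 1
  · right
    exact ⟨ht, by rw [h8, ht, mul_one]⟩
  exfalso
  by_cases hs2 : σ * σ = 1
  · by_cases ht2 : τ * τ = 1
    · have hst : (σ * τ) ^ 2 = 1 := by
        rw [sq, show σ * τ * (σ * τ) = (σ * σ) * (τ * τ) by
          simp only [mul_assoc, mul_left_comm], hs2, ht2, one_mul]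
      have hsi : σ⁻¹ = σ := inv_eq_of_mul_eq_one_left hs2
      have hone : ∀ k : F ≃ₐ[K] F, k ^ 2 = 1 → Odd (orderOf k) → k = 1 := by
        intro k hk ho
        have h10 := orderOf_dvd_of_pow_eq_one hk
        rcases (Nat.dvd_prime Nat.prime_two).1 h10 with h11 | h11
        · exact orderOf_eq_one_iff.1 h11
        · rw [h11] at ho
          exact absurd ho (by decide)
      have hst1 : σ * τ = 1 := by
        rcases hodd with ho | ho
        · rw [h8] at ho
          exact hone _ hst ho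
        · rw [hsi] at ho
          exact hone _ hst ho
      have hts : τ = σ := by
        have := mul_eq_one_iff_inv_eq.1 hst1
        rw [← this, hsi]
      have h12 := hrel
      rw [h8, hst1, hts] at h12
      have h14 : (2 : ℤ) • (vv (Units.mk0 x hx0) 1 - vv (Units.mk0 x hx0) σ) = 0 := by
        rw [two_zsmul]
        rw [← sub_eq_zero] at h12
        rw [← h12]
        abel
      have h13 := torsion_free 2 _ two_ne_zero h14
      exact hs (inj _ _ (sub_eq_zero.1 h13)).symm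
    · refine six hV hσ hx0 hx τ σ κ hκ ?_ (h1 σ hs) (h2 τ ht2)
      have e : τ (σ x) = ρ x := by
        rw [h8, mul_comm σ τ]
        rfl
      rw [e, h]
      ring
  · refine six hV hσ hx0 hx σ τ κ hκ ?_ (h1 τ ht) (h2 σ hs2)
    have e : σ (τ x) = ρ x := by
      rw [h8]
      rfl
    rw [e, h]

end Pool.Agent.H512.CJ
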