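import Pool.Agent.H512.CJ.Const

/-!
# Matrices of conjugates and constants: commutative groups of any order
-/

set_option autoImplicit false

namespace Pool.Agent.H512.CJ

open Pool.Agent.X148.TR (Two MultE)
open Pool.Agent.E8helper92.PG (Qb mem_Qb LogForms logForms_galois log_galois)

theorem cancel1 {W : Type*} [AddCommGroup W] {a b c : W} (h : a + b = c + a) : b = c := by
  rw [add_comm c a] at h
  exact add_left_cancel h

theorem cancel2 {W : Type*} [AddCommGroup W] {a b c : W} (h : a + b = b + c) : a = c := by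
  rw [add_comm a b] at h
  exact add_left_cancel h

section module

variable {D : Type*} [CommGroup D] [Fintype D] {W : Type*} [AddCommGroup W]

theorem four' {F : D → ℤ} {ρ σ τ : D} (h : ∀ g, F g + F (g * ρ) = F (g * σ) + F (g * τ)) (g : D) :
    F g + F (g * ρ) = F (g * (ρ * σ⁻¹ * τ⁻¹)) + F (g * (ρ * σ⁻¹ * τ⁻¹) * ρ) ∧
    F g + F (g * (σ⁻¹ * τ)) = F (g * (ρ * σ⁻¹ * τ⁻¹)) + F (g * (ρ * σ⁻¹ * τ⁻¹) * (σ⁻¹ * τ)) := by
  have h1 : ∀ g, F g + F (g * ρ⁻¹) = F (g * σ⁻¹) + F (g * τ⁻¹) := by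
    intro g
    have := adj (ι := Fin 4) ![1, 1, -1, -1] ![1, ρ, σ, τ] F (by
      intro g
      simp [Fin.sum_univ_four]
      have := h g
      linarith) g
    simp [Fin.sum_univ_four] at this
    linarith
  set θ := ρ * σ⁻¹ * τ⁻¹ with hθ
  have h2 : ∀ g, F (g * σ) + F (g * τ) = F (g * σ * θ) + F (g * τ * θ) := by
    intro g
    have h3 := h1 (g * ρ)
    rw [mul_inv_cancel_right] at h3
    have h4 := h g
    have e1 : g * σ * θ = g * ρ * τ⁻¹ := by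
      rw [hθ, show g * σ * (ρ * σ⁻¹ * τ⁻¹) = g * ρ * τ⁻¹ * (σ * σ⁻¹) by
        simp only [mul_assoc, mul_comm, mul_left_comm]]
      simp
    have e2 : g * τ * θ = g * ρ * σ⁻¹ := by
      rw [hθ, show g * τ * (ρ * σ⁻¹ * τ⁻¹) = g * ρ * σ⁻¹ * (τ * τ⁻¹) by
        simp only [mul_assoc, mul_comm, mul_left_comm]]
      simp
    rw [e1, e2]
    linarith
  constructor
  · have h3 := h2 g
    rw [mul_right_comm g σ θ, mul_right_comm g τ θ] at h3
    rw [h g, h3, h (g * θ)]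
  · have h3 := h2 (g * σ⁻¹)
    rw [inv_mul_cancel_right, mul_assoc g σ⁻¹ τ] at h3
    rw [h3, mul_right_comm g (σ⁻¹ * τ) θ]

theorem of_functionals (htf : ∀ (m : ℤ) (w : W), m ≠ 0 → m • w = 0 → w = 0) (v : D → W) (a b c d : D)
    (h : ∀ F : D → ℤ, (∀ {κ : Type} [Fintype κ] (c : κ → ℤ) (d : κ → D), ∑ i, c i • v (d i) = 0 →
      ∑ i, c i * F (d i) = 0) → F a + F b = F c + F d) : v a + v b = v c + v d := by
  by_contra hne
  obtain ⟨F, h1, h2⟩ := functional htf v (κ := Fin 4) ![1, 1, -1, -1] ![a, b, c, d] (by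
    rw [Fin.sum_univ_four]
    show (1 : ℤ) • v a + (1 : ℤ) • v b + (-1 : ℤ) • v c + (-1 : ℤ) • v d ≠ 0
    rw [one_smul, one_smul, neg_one_smul, neg_one_smul]
    intro h0
    apply hne
    rw [← sub_eq_zero, ← h0]
    abel)
  apply h1
  rw [Fin.sum_univ_four]
  show 1 * F a + 1 * F b + (-1) * F c + (-1) * F d = 0
  have := h F h2
  linarith

theorem four_module' (htf : ∀ (m : ℤ) (w : W), m ≠ 0 → m • w = 0 → w = 0) (v : D → W) {ρ σ τ : D}
    (h : ∀ g, v g + v (g * ρ) = v (g * σ) + v (g * τ)) (g : D) :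
    v g + v (g * ρ) = v (g * (ρ * σ⁻¹ * τ⁻¹)) + v (g * (ρ * σ⁻¹ * τ⁻¹) * ρ) ∧
    v g + v (g * (σ⁻¹ * τ)) = v (g * (ρ * σ⁻¹ * τ⁻¹)) + v (g * (ρ * σ⁻¹ * τ⁻¹) * (σ⁻¹ * τ)) := by
  have hrel : ∀ F : D → ℤ, (∀ {κ : Type} [Fintype κ] (c : κ → ℤ) (d : κ → D), ∑ i, c i • v (d i) = 0 →
      ∑ i, c i * F (d i) = 0) → ∀ g, F g + F (g * ρ) = F (g * σ) + F (g * τ) := by
    intro F hF g
    have h3 := hF (κ := Fin 4) ![1, 1, -1, -1] ![g, g * ρ, g * σ, g * τ] (by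
      simp [Fin.sum_univ_four]
      rw [h g]
      abel)
    simp [Fin.sum_univ_four] at h3
    linarith
  exact ⟨of_functionals htf v _ _ _ _ fun F hF => (four' (hrel F hF) g).1,
    of_functionals htf v _ _ _ _ fun F hF => (four' (hrel F hF) g).2⟩

theorem three_module' (htf : ∀ (m : ℤ) (w : W), m ≠ 0 → m • w = 0 → w = 0) (v : D → W) {ρ σ : D}
    (hinj : ∀ a b, v a = v b → a = b) (h : ∀ g, v g + v (g * ρ) = v (g * σ)) :
    ρ = σ * σ ∧ ∀ g, v g + v (g * (σ * σ * σ)) = 0 := by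
  have hrel : ∀ F : D → ℤ, (∀ {κ : Type} [Fintype κ] (c : κ → ℤ) (d : κ → D), ∑ i, c i • v (d i) = 0 →
      ∑ i, c i * F (d i) = 0) → ∀ g, F g + F (g * ρ) = F (g * σ) := by
    intro F hF g
    have := hF (κ := Fin 3) ![1, 1, -1] ![g, g * ρ, g * σ] (by
      rw [Fin.sum_univ_three]
      show (1 : ℤ) • v g + (1 : ℤ) • v (g * ρ) + (-1 : ℤ) • v (g * σ) = 0
      rw [one_smul, one_smul, neg_one_smul, h g]
      abel)
    rw [Fin.sum_univ_three] at this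
    have h1 : 1 * F g + 1 * F (g * ρ) + (-1) * F (g * σ) = 0 := this
    linarith
  have hρ : v σ = v (ρ * σ⁻¹) := by
    by_contra hne
    obtain ⟨F, h1, h2⟩ := functional_of_ne htf v hne
    apply h1
    have h3 := hrel F h2
    have h4 := adj (ι := Fin 3) ![1, 1, -1] ![1, ρ, σ] F (by
      intro g
      rw [Fin.sum_univ_three]
      show 1 * F (g * 1) + 1 * F (g * ρ) + (-1) * F (g * σ) = 0
      have := h3 g
      rw [mul_one]
      linarith) ρ
    rw [Fin.sum_univ_three] at h4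
    have h5 : 1 * F (ρ * 1⁻¹) + 1 * F (ρ * ρ⁻¹) + (-1) * F (ρ * σ⁻¹) = 0 := h4
    rw [inv_one, mul_one, mul_inv_cancel] at h5
    have h6 := h3 1
    rw [one_mul, one_mul] at h6
    linarith
  have hρ' : ρ = σ * σ := by
    have := hinj _ _ hρ
    rw [eq_mul_inv_iff_mul_eq] at this
    exact this.symm
  refine ⟨hρ', fun g => ?_⟩
  have h4 := h g
  have h5 := h (g * σ)
  rw [hρ'] at h4 h5
  rw [show g * σ * (σ * σ) = g * (σ * σ * σ) by simp only [mul_assoc], mul_assoc g σ σ, ← h4] at h5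
  have h6 : v g + v (g * (σ * σ * σ)) =
      (v g + v (g * (σ * σ)) + v (g * (σ * σ * σ))) - v (g * (σ * σ)) := by abel
  rw [h6, h5, sub_self]

end module

section field

variable {p : ℕ} [hp : Fact p.Prime] {K : IntermediateField ℚ_[p] (PadicAlgCl p)}
  {F : IntermediateField K (PadicAlgCl p)}

/-- The relation `κ x · μ x = φ x · φ μ x`. -/
theorem inv_sq {V : Submodule (Qb p) (PadicAlgCl p)} (hV : Two V)
    (hσ : ∀ σ : PadicAlgCl p ≃ₐ[ℚ_[p]] PadicAlgCl p, ∀ v ∈ V, σ v ∈ V)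
    (hab : ∀ g h : F ≃ₐ[K] F, g * h = h * g) {x : F} (hx0 : x ≠ 0) (hx : (x : PadicAlgCl p) ∈ V)
    (h1 : ∀ g : F ≃ₐ[K] F, g ≠ 1 → LinearIndependent (Qb p) ![(x : PadicAlgCl p), ((g x : F) : PadicAlgCl p)])
    (h3 : ∀ g h : F ≃ₐ[K] F, g ≠ 1 → h ≠ 1 → g ≠ h → LinearIndependent (Qb p) ![(x : PadicAlgCl p),
      ((g x : F) : PadicAlgCl p), ((h x : F) : PadicAlgCl p)])
    (φ μ : F ≃ₐ[K] F) (hφ : φ ≠ 1)
    (h : vv (Units.mk0 x hx0) 1 + vv (Units.mk0 x hx0) μ =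
      vv (Units.mk0 x hx0) φ + vv (Units.mk0 x hx0) (φ * μ)) : μ * μ = 1 := by
  by_contra hμ
  have inj := vv_inj hx0 h1
  have ne : ∀ g : F ≃ₐ[K] F, g x ≠ 0 := fun g => (map_ne_zero g).2 hx0
  have hx0' : (x : PadicAlgCl p) ≠ 0 := fun e => hx0 (Subtype.ext e)
  have hne1 : φ * μ ≠ 1 := by
    intro e
    rw [e] at h
    have h4 := inj _ _ (cancel1 h)
    apply hμ
    rw [← h4] at e
    exact e
  have hne2 : φ * μ ≠ μ * μ := by
    intro e
    have e1 : φ = μ := mul_right_cancel e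
    rw [e1] at h
    have h4 := inj _ _ (cancel2 h)
    exact hμ h4.symm
  obtain ⟨κ, hκ', hr⟩ : ∃ κ : F, IsAlgebraic ℚ (κ : PadicAlgCl p) ∧ κ * (x * μ x) = φ x * φ (μ x) := by
    refine ⟨x⁻¹ * (μ x)⁻¹ * (φ x * φ (μ x)), vv_rel.1 h, ?_⟩
    have := ne μ
    field_simp
  have hr2 : μ κ * (μ x * μ (μ x)) = φ (μ x) * φ (μ (μ x)) := by
    have h5 : μ (κ * (x * μ x)) = μ (φ x * φ (μ x)) := by rw [hr]
    rw [map_mul, map_mul, map_mul] at h5
    have e1 : ∀ y : F, μ (φ y) = φ (μ y) := by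
      intro y
      have := DFunLike.congr_fun (hab μ φ) y
      exact this
    rwa [e1, e1] at h5
  refine three hV (pair_one hx0' (h1 φ hφ)) _ (h3 (φ * μ) (μ * μ) hne1 hμ hne2) ?_ ?_
  · intro i
    fin_cases i
    · exact hx
    · exact conj_mem hσ hx (φ * μ)
    · exact conj_mem hσ hx (μ * μ)
  · intro i
    fin_cases i
    · show ((φ x : F) : PadicAlgCl p) / (x : PadicAlgCl p) * (x : PadicAlgCl p) ∈ V
      rw [div_mul_cancel₀ _ hx0']
      exact conj_mem hσ hx φ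
    · show ((φ x : F) : PadicAlgCl p) / (x : PadicAlgCl p) * ((φ (μ x) : F) : PadicAlgCl p) ∈ V
      have e : φ x / x * φ (μ x) = κ * μ x := by
        rw [div_mul_eq_mul_div, div_eq_iff hx0]
        linear_combination -hr
      have e' : ((φ x : F) : PadicAlgCl p) / (x : PadicAlgCl p) * ((φ (μ x) : F) : PadicAlgCl p) =
          (κ : PadicAlgCl p) * ((μ x : F) : PadicAlgCl p) := congrArg Subtype.val e
      rw [e']
      exact smul_mem_of_alg hκ' (conj_mem hσ hx μ)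
    · show ((φ x : F) : PadicAlgCl p) / (x : PadicAlgCl p) * ((μ (μ x) : F) : PadicAlgCl p) ∈ V
      have hμκ : (μ κ) ≠ 0 := by
        intro e
        rw [e, zero_mul] at hr2
        exact mul_ne_zero (ne (φ * μ)) (ne (φ * (μ * μ))) hr2.symm
      have e : φ x / x * μ (μ x) = κ * ((μ κ)⁻¹ * φ (μ (μ x))) := by
        rw [div_mul_eq_mul_div, div_eq_iff hx0]
        apply mul_left_cancel₀ (mul_ne_zero hμκ (ne μ))
        apply mul_left_cancel₀ (ne (φ * μ))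
        show φ (μ x) * (μ κ * μ x * (φ x * μ (μ x))) =
          φ (μ x) * (μ κ * μ x * (κ * ((μ κ)⁻¹ * φ (μ (μ x))) * x))
        have e2 : φ (μ x) * (μ κ * μ x * (κ * ((μ κ)⁻¹ * φ (μ (μ x))) * x)) =
            (μ κ * (μ κ)⁻¹) * (φ (μ x) * φ (μ (μ x))) * (κ * (x * μ x)) := by ring
        rw [e2, mul_inv_cancel₀ hμκ, one_mul, ← hr2, hr]
        ring
      have e' : ((φ x : F) : PadicAlgCl p) / (x : PadicAlgCl p) * ((μ (μ x) : F) : PadicAlgCl p) =
          (κ : PadicAlgCl p) * ((((μ κ)⁻¹ : F) : PadicAlgCl p) * ((φ (μ (μ x)) : F) : PadicAlgCl p)) :=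
        congrArg Subtype.val e
      rw [e']
      refine smul_mem_of_alg hκ' (smul_mem_of_alg ?_ (conj_mem hσ hx (φ * (μ * μ))))
      have h6 := (alg_gal μ hκ').inv
      exact h6

/-- **The relation of four conjugates, groups of any order.** -/
theorem even_core {V : Submodule (Qb p) (PadicAlgCl p)} (hV : Two V)
    (hσ : ∀ σ : PadicAlgCl p ≃ₐ[ℚ_[p]] PadicAlgCl p, ∀ v ∈ V, σ v ∈ V) [FiniteDimensional K F]
    (hab : ∀ g h : F ≃ₐ[K] F, g * h = h * g) {x : F} (hx0 : x ≠ 0) (hx : (x : PadicAlgCl p) ∈ V)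
    (h1 : ∀ g : F ≃ₐ[K] F, g ≠ 1 → LinearIndependent (Qb p) ![(x : PadicAlgCl p), ((g x : F) : PadicAlgCl p)])
    (h3 : ∀ g h : F ≃ₐ[K] F, g ≠ 1 → h ≠ 1 → g ≠ h → LinearIndependent (Qb p) ![(x : PadicAlgCl p),
      ((g x : F) : PadicAlgCl p), ((h x : F) : PadicAlgCl p)])
    (ρ σ τ : F ≃ₐ[K] F)
    (hrel : vv (Units.mk0 x hx0) 1 + vv (Units.mk0 x hx0) ρ =
      vv (Units.mk0 x hx0) σ + vv (Units.mk0 x hx0) τ) :
    (σ = 1 ∧ ρ = τ) ∨ (τ = 1 ∧ ρ = σ) ∨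
      (ρ ≠ 1 ∧ ρ * ρ = 1 ∧ σ⁻¹ * τ ≠ 1 ∧ (σ⁻¹ * τ) * (σ⁻¹ * τ) = 1) := by
  classical
  let _ : CommGroup (F ≃ₐ[K] F) := { (inferInstance : Group (F ≃ₐ[K] F)) with mul_comm := hab }
  have ne : ∀ g : F ≃ₐ[K] F, g x ≠ 0 := fun g => (map_ne_zero g).2 hx0
  have inj := vv_inj hx0 h1
  have h2 : ∀ g : F ≃ₐ[K] F, g * g ≠ 1 → LinearIndependent (Qb p) ![(x : PadicAlgCl p),
      ((g x : F) : PadicAlgCl p), ((g (g x) : F) : PadicAlgCl p)] := by
    intro g hg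
    have hg1 : g ≠ 1 := by
      rintro rfl
      exact hg (mul_one 1)
    exact h3 g (g * g) hg1 hg (fun e => hg1 (by
      have : g * 1 = g * g := by rw [mul_one]; exact e
      exact (mul_left_cancel this).symm))
  have hshift : ∀ g, vv (Units.mk0 x hx0) g + vv (Units.mk0 x hx0) (g * ρ) =
      vv (Units.mk0 x hx0) (g * σ) + vv (Units.mk0 x hx0) (g * τ) := by
    intro g
    have := vv_shift hrel g
    rwa [mul_one] at this
  obtain ⟨h6, h7⟩ := four_module' torsion_free (vv (Units.mk0 x hx0)) hshift 1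
  simp only [one_mul] at h6 h7
  -- the relation in `F`
  obtain ⟨κ, hκ', h⟩ : ∃ κ : F, IsAlgebraic ℚ (κ : PadicAlgCl p) ∧ κ * (x * ρ x) = σ x * τ x := by
    refine ⟨x⁻¹ * (ρ x)⁻¹ * (σ x * τ x), vv_rel.1 hrel, ?_⟩
    have := ne ρ
    field_simp
  have hcore : Odd (orderOf ρ) ∨ Odd (orderOf (σ⁻¹ * τ)) → (σ = 1 ∧ ρ = τ) ∨ (τ = 1 ∧ ρ = σ) :=
    core hV hσ hab hx0 hx h1 h2 ρ σ τ κ hκ' h
  by_cases hρ1 : ρ = 1
  · rcases hcore (Or.inl (by rw [hρ1, orderOf_one]; exact odd_one)) with h8 | h8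
    · exact Or.inl h8
    · exact Or.inr (Or.inl h8)
  by_cases hμ1 : σ⁻¹ * τ = 1
  · rcases hcore (Or.inr (by rw [hμ1, orderOf_one]; exact odd_one)) with h8 | h8
    · exact Or.inl h8
    · exact Or.inr (Or.inl h8)
  by_cases hθ : ρ * σ⁻¹ * τ⁻¹ = 1
  · have h8 : ρ = σ * τ := by
      have h9 : ρ * σ⁻¹ * τ⁻¹ * τ * σ = τ * σ := by rw [hθ, one_mul]
      rw [inv_mul_cancel_right, inv_mul_cancel_right] at h9
      rw [h9, mul_comm]
    by_cases hs : σ = 1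
    · exact Or.inl ⟨hs, by rw [h8, hs, one_mul]⟩
    by_cases ht : τ = 1
    · exact Or.inr (Or.inl ⟨ht, by rw [h8, ht, mul_one]⟩)
    right
    right
    have hs2 : σ * σ = 1 := by
      by_contra hs2
      refine six hV hσ hx0 hx σ τ κ hκ' ?_ (h1 τ ht) (h2 σ hs2)
      have e : σ (τ x) = ρ x := by
        rw [h8]
        rfl
      rw [e, h]
    have ht2 : τ * τ = 1 := by
      by_contra ht2
      refine six hV hσ hx0 hx τ σ κ hκ' ?_ (h1 σ hs) (h2 τ ht2)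
      have e : τ (σ x) = ρ x := by
        rw [h8, mul_comm σ τ]
        rfl
      rw [e, h]
      ring
    have hsi : σ⁻¹ = σ := inv_eq_of_mul_eq_one_left hs2
    have hst : σ * τ * (σ * τ) = 1 := by
      rw [show σ * τ * (σ * τ) = (σ * σ) * (τ * τ) by
        simp only [mul_assoc, mul_left_comm], hs2, ht2, one_mul]
    exact ⟨hρ1, by rw [h8, hst], hμ1, by rw [hsi, hst]⟩
  · right
    right
    exact ⟨hρ1, inv_sq hV hσ hab hx0 hx h1 h3 _ _ hθ h6, hμ1, inv_sq hV hσ hab hx0 hx h1 h3 _ _ hθ h7⟩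

/-- Two entries on a diagonal: `1` and `1`, or conjugates whose quotient has order two. -/
def Exc {D : Type*} [Group D] : Option D → Option D → Prop
  | none, none => True
  | some g, some k => g⁻¹ * k ≠ 1 ∧ (g⁻¹ * k) * (g⁻¹ * k) = 1
  | none, some _ => False
  | some _, none => False

theorem opt_even {V : Submodule (Qb p) (PadicAlgCl p)} (hV : Two V)
    (hσ : ∀ σ : PadicAlgCl p ≃ₐ[ℚ_[p]] PadicAlgCl p, ∀ v ∈ V, σ v ∈ V) (hone : (1 : PadicAlgCl p) ∈ V)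
    [FiniteDimensional K F]
    (hab : ∀ g h : F ≃ₐ[K] F, g * h = h * g) {x : F} (hx0 : x ≠ 0) (hx : (x : PadicAlgCl p) ∈ V)
    (hxt : Transcendental ℚ (x : PadicAlgCl p))
    (h1 : ∀ g : F ≃ₐ[K] F, g ≠ 1 → LinearIndependent (Qb p) ![(x : PadicAlgCl p), ((g x : F) : PadicAlgCl p)])
    (h1c : ∀ g : F ≃ₐ[K] F, g ≠ 1 →
      LinearIndependent (Qb p) ![1, (x : PadicAlgCl p), ((g x : F) : PadicAlgCl p)])
    (h3 : ∀ g h : F ≃ₐ[K] F, g ≠ 1 → h ≠ 1 → g ≠ h → LinearIndependent (Qb p) ![(x : PadicAlgCl p),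
      ((g x : F) : PadicAlgCl p), ((h x : F) : PadicAlgCl p)])
    (a b c d : Option (F ≃ₐ[K] F))
    (h : cl (base (Units.mk0 x hx0) a) + cl (base (Units.mk0 x hx0) d) =
      cl (base (Units.mk0 x hx0) b) + cl (base (Units.mk0 x hx0) c)) :
    (a = b ∧ d = c) ∨ (a = c ∧ d = b) ∨ (Exc a d ∧ Exc b c) := by
  classical
  let _ : CommGroup (F ≃ₐ[K] F) := { (inferInstance : Group (F ≃ₐ[K] F)) with mul_comm := hab }
  have hx0' : (x : PadicAlgCl p) ≠ 0 := fun e => hx0 (Subtype.ext e)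
  have ne : ∀ g : F ≃ₐ[K] F, g x ≠ 0 := fun g => (map_ne_zero g).2 hx0
  have inj := vv_inj hx0 h1
  have nz : ∀ g : F ≃ₐ[K] F, vv (Units.mk0 x hx0) g ≠ 0 := by
    intro g hg
    have h3 : cl (Units.map (g : F →* F) (Units.mk0 x hx0)) = 0 := hg
    rw [cl_eq_zero] at h3
    have h4 := alg_gal g⁻¹ (z := g x) h3
    have h5 : g⁻¹ (g x) = x := by
      show (g⁻¹ * g) x = x
      rw [inv_mul_cancel]
      rfl
    rw [h5] at h4
    exact hxt h4
  have rel2 : ∀ {g k : F ≃ₐ[K] F}, vv (Units.mk0 x hx0) g + vv (Units.mk0 x hx0) k = 0 ↔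
      IsAlgebraic ℚ (((g x : F) : PadicAlgCl p) * ((k x : F) : PadicAlgCl p)) := by
    intro g k
    have h5 : vv (Units.mk0 x hx0) g + vv (Units.mk0 x hx0) k =
      cl (Units.map (g : F →* F) (Units.mk0 x hx0) * Units.map (k : F →* F) (Units.mk0 x hx0)) := rfl
    rw [h5, cl_eq_zero]
    rfl
  have shift2 : ∀ {g k : F ≃ₐ[K] F}, vv (Units.mk0 x hx0) g + vv (Units.mk0 x hx0) k = 0 →
      g⁻¹ * k ≠ 1 ∧ (g⁻¹ * k) * (g⁻¹ * k) = 1 := by
    intro g k hgk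
    have hgk1 : g⁻¹ * k ≠ 1 := by
      intro e
      have e1 : g = k := inv_mul_eq_one.1 e
      rw [← e1] at hgk
      refine nz g (torsion_free 2 _ two_ne_zero ?_)
      rw [two_zsmul, hgk]
    refine ⟨hgk1, ?_⟩
    have h3 : ∀ s : F ≃ₐ[K] F, vv (Units.mk0 x hx0) (s * g) + vv (Units.mk0 x hx0) (s * k) = 0 := by
      intro s
      have h5 := alg_gal s (z := g x * k x) (rel2.1 hgk)
      rw [rel2]
      have h7 : s (g x * k x) = (s * g) x * (s * k) x := map_mul s _ _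
      rw [h7] at h5
      exact h5
    have h4 := h3 g⁻¹
    have h5 := h3 (g⁻¹ * k * g⁻¹)
    rw [inv_mul_cancel] at h4
    rw [inv_mul_cancel_right, mul_assoc (g⁻¹ * k) g⁻¹ k] at h5
    have h6 : vv (Units.mk0 x hx0) 1 + vv (Units.mk0 x hx0) (g⁻¹ * k) =
        vv (Units.mk0 x hx0) (g⁻¹ * k) + vv (Units.mk0 x hx0) (g⁻¹ * k * (g⁻¹ * k)) := by rw [h4, h5]
    exact (inj _ _ (cancel2 h6)).symm
  have shift3 : ∀ {g k l : F ≃ₐ[K] F},
      vv (Units.mk0 x hx0) g + vv (Units.mk0 x hx0) k = vv (Units.mk0 x hx0) l → False := by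
    intro g k l hgk
    have h3 : ∀ s : F ≃ₐ[K] F, vv (Units.mk0 x hx0) (s * g) + vv (Units.mk0 x hx0) (s * k) =
        vv (Units.mk0 x hx0) (s * l) := by
      intro s
      have h4 : cl (Units.map (g : F →* F) (Units.mk0 x hx0) * Units.map (k : F →* F) (Units.mk0 x hx0)) =
        cl (Units.map (l : F →* F) (Units.mk0 x hx0)) := hgk
      rw [cl_eq] at h4
      have h5 := alg_gal s (z := (g x * k x)⁻¹ * l x) h4
      have h6 : cl (Units.map ((s * g : F ≃ₐ[K] F) : F →* F) (Units.mk0 x hx0) *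
          Units.map ((s * k : F ≃ₐ[K] F) : F →* F) (Units.mk0 x hx0)) =
          cl (Units.map ((s * l : F ≃ₐ[K] F) : F →* F) (Units.mk0 x hx0)) := by
        rw [cl_eq]
        have h7 : s ((g x * k x)⁻¹ * l x) = ((s * g) x * (s * k) x)⁻¹ * (s * l) x := by
          rw [map_mul, map_inv₀, map_mul]
          rfl
        rw [h7] at h5
        exact h5
      exact h6
    obtain ⟨hρ, h6⟩ := three_module' torsion_free (vv (Units.mk0 x hx0)) (ρ := g⁻¹ * k) (σ := g⁻¹ * l) inj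
      (fun s => by
        have h8 := h3 (s * g⁻¹)
        rwa [inv_mul_cancel_right, mul_assoc, mul_assoc] at h8)
    obtain ⟨σ, hσd⟩ : ∃ σ : F ≃ₐ[K] F, σ = g⁻¹ * l := ⟨_, rfl⟩
    rw [← hσd] at hρ h6
    have hσ1 : σ ≠ 1 := by
      intro e
      have h7 := h6 1
      rw [e] at h7
      simp only [one_mul] at h7
      refine nz 1 (torsion_free 2 _ two_ne_zero ?_)
      rw [two_zsmul, h7]
    -- the relation `σ⁻¹ x · σ x = κ x`
    have h8 := h3 (σ⁻¹ * g⁻¹)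
    have e1 : σ⁻¹ * g⁻¹ * k = σ := by rw [mul_assoc, hρ, ← mul_assoc, inv_mul_cancel, one_mul]
    have e2 : σ⁻¹ * g⁻¹ * l = 1 := by rw [mul_assoc, ← hσd, inv_mul_cancel]
    rw [inv_mul_cancel_right, e1, e2] at h8
    obtain ⟨κ, hκ, hr⟩ : ∃ κ : F, IsAlgebraic ℚ (κ : PadicAlgCl p) ∧ κ * x = σ⁻¹ x * σ x := by
      have h9 : cl (Units.map ((σ⁻¹ : F ≃ₐ[K] F) : F →* F) (Units.mk0 x hx0) *
          Units.map (σ : F →* F) (Units.mk0 x hx0)) =
        cl (Units.map ((1 : F ≃ₐ[K] F) : F →* F) (Units.mk0 x hx0)) := h8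
      have h10 := cl_eq.1 h9.symm
      refine ⟨x⁻¹ * (σ⁻¹ x * σ x), h10, ?_⟩
      field_simp
    obtain ⟨κ', hκ', hr'⟩ : ∃ κ' : F, IsAlgebraic ℚ (κ' : PadicAlgCl p) ∧
        κ' = σ x * σ (σ (σ (σ x))) := ⟨_, rel2.1 (h6 σ), rfl⟩
    refine three hV (pair_one hx0' (h1 σ⁻¹ (fun e => hσ1 (inv_eq_one.1 e)))) _ (h1c σ hσ1) ?_ ?_
    · intro i
      fin_cases i
      · exact hone
      · exact hx
      · exact conj_mem hσ hx σ
    · intro i
      fin_cases i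
      · show ((σ⁻¹ x : F) : PadicAlgCl p) / (x : PadicAlgCl p) * 1 ∈ V
        have e : σ⁻¹ x / x * 1 = κ * (κ'⁻¹ * σ (σ (σ (σ x)))) := by
          have n1 := ne σ
          have n2 : σ (σ (σ (σ x))) ≠ 0 := ne (σ * (σ * (σ * σ)))
          rw [mul_one, div_eq_iff hx0, hr', mul_inv]
          apply mul_right_cancel₀ n1
          rw [← hr]
          field_simp
        have e' : ((σ⁻¹ x : F) : PadicAlgCl p) / (x : PadicAlgCl p) * 1 =
            (κ : PadicAlgCl p) * (((κ'⁻¹ : F) : PadicAlgCl p) * ((σ (σ (σ (σ x))) : F) : PadicAlgCl p)) :=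
          congrArg Subtype.val e
        rw [e']
        refine smul_mem_of_alg hκ (smul_mem_of_alg ?_ (conj_mem hσ hx (σ * (σ * (σ * σ)))))
        have h11 := hκ'.inv
        exact h11
      · show ((σ⁻¹ x : F) : PadicAlgCl p) / (x : PadicAlgCl p) * (x : PadicAlgCl p) ∈ V
        rw [div_mul_cancel₀ _ hx0']
        exact conj_mem hσ hx σ⁻¹
      · show ((σ⁻¹ x : F) : PadicAlgCl p) / (x : PadicAlgCl p) * ((σ x : F) : PadicAlgCl p) ∈ V
        have e : σ⁻¹ x / x * σ x = κ := by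
          rw [div_mul_eq_mul_div, div_eq_iff hx0, hr]
        have e' : ((σ⁻¹ x : F) : PadicAlgCl p) / (x : PadicAlgCl p) * ((σ x : F) : PadicAlgCl p) =
            (κ : PadicAlgCl p) * 1 := by
          rw [mul_one]
          exact congrArg Subtype.val e
        rw [e']
        exact smul_mem_of_alg hκ hone
  have z1 : ∀ w : WF F, 0 + w = w := fun w => zero_add w
  have z2 : ∀ w : WF F, w + 0 = w := fun w => add_zero w
  rcases a with _ | a <;> rcases b with _ | b <;> rcases c with _ | c <;> rcases d with _ | d <;>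
    simp only [cl_base_none, cl_base_some, z1, z2] at h
  · exact Or.inl ⟨rfl, rfl⟩
  · exact absurd h (nz _)
  · exact absurd h.symm (nz _)
  · exact Or.inl ⟨rfl, by rw [inj _ _ h]⟩
  · exact absurd h.symm (nz _)
  · exact Or.inr (Or.inl ⟨rfl, by rw [inj _ _ h]⟩)
  · exact Or.inr (Or.inr ⟨trivial, shift2 h.symm⟩)
  · exact (shift3 h.symm).elim
  · exact absurd h (nz _)
  · exact Or.inr (Or.inr ⟨shift2 h, trivial⟩)
  · exact Or.inr (Or.inl ⟨by rw [inj _ _ h], rfl⟩)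
  · exact (shift3 h).elim
  · exact Or.inl ⟨by rw [inj _ _ h], rfl⟩
  · exact (shift3 h).elim
  · exact (shift3 h.symm).elim
  · have h4 := vv_shift h a⁻¹
    rw [inv_mul_cancel] at h4
    rcases even_core hV hσ hab hx0 hx h1 h3 (a⁻¹ * d) (a⁻¹ * b) (a⁻¹ * c) h4 with
      ⟨h6, h7⟩ | ⟨h6, h7⟩ | ⟨h6, h6', h7, h7'⟩
    · left
      exact ⟨by rw [inv_mul_eq_one.1 h6], by rw [mul_left_cancel h7]⟩
    · right
      left
      exact ⟨by rw [inv_mul_eq_one.1 h6], by rw [mul_left_cancel h7]⟩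
    · right
      right
      refine ⟨⟨h6, h6'⟩, ?_⟩
      have e : (a⁻¹ * b)⁻¹ * (a⁻¹ * c) = b⁻¹ * c := by group
      rw [e] at h7 h7'
      exact ⟨h7, h7'⟩

theorem matrix_even {V : Submodule (Qb p) (PadicAlgCl p)} (hV : Two V)
    (hσ : ∀ σ : PadicAlgCl p ≃ₐ[ℚ_[p]] PadicAlgCl p, ∀ v ∈ V, σ v ∈ V) (hone : (1 : PadicAlgCl p) ∈ V)
    [FiniteDimensional K F]
    (hab : ∀ g h : F ≃ₐ[K] F, g * h = h * g) {x : F} (hx : (x : PadicAlgCl p) ∈ V)
    (hxt : Transcendental ℚ (x : PadicAlgCl p))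
    (h1 : ∀ g : F ≃ₐ[K] F, g ≠ 1 → LinearIndependent (Qb p) ![(x : PadicAlgCl p), ((g x : F) : PadicAlgCl p)])
    (h1c : ∀ g : F ≃ₐ[K] F, g ≠ 1 →
      LinearIndependent (Qb p) ![1, (x : PadicAlgCl p), ((g x : F) : PadicAlgCl p)])
    (h3 : ∀ g h : F ≃ₐ[K] F, g ≠ 1 → h ≠ 1 → g ≠ h → LinearIndependent (Qb p) ![(x : PadicAlgCl p),
      ((g x : F) : PadicAlgCl p), ((h x : F) : PadicAlgCl p)])
    (a b c d : Option (F ≃ₐ[K] F)) (hexc : ¬ (Exc a d ∧ Exc b c)) (α β γ δ : Qb p)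
    (hrow : LinearIndependent (Qb p) ![![α • entry x a, β • entry x b], ![γ • entry x c, δ • entry x d]])
    (hcol : LinearIndependent (Qb p) ![![α • entry x a, γ • entry x c], ![β • entry x b, δ • entry x d]]) :
    (α • entry x a) * (δ • entry x d) ≠ (β • entry x b) * (γ • entry x c) := by
  have hx0 : x ≠ 0 := by
    rintro rfl
    exact hxt isAlgebraic_zero
  refine gen (entry_ne hx0 a) (entry_ne hx0 b) (entry_ne hx0 c) (entry_ne hx0 d) α β γ δ ?_ hrow hcol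
  intro h
  have h' : IsAlgebraic ℚ (((base (Units.mk0 x hx0) a : F) : PadicAlgCl p)⁻¹ *
      ((base (Units.mk0 x hx0) d : F) : PadicAlgCl p)⁻¹ *
      (((base (Units.mk0 x hx0) b : F) : PadicAlgCl p) * ((base (Units.mk0 x hx0) c : F) : PadicAlgCl p))) := by
    rw [← entry_eq, ← entry_eq, ← entry_eq, ← entry_eq]
    exact h
  rcases opt_even hV hσ hone hab hx0 hx hxt h1 h1c h3 a b c d (cl_four.2 h') with
    ⟨rfl, rfl⟩ | ⟨rfl, rfl⟩ | h4
  · exact Or.inl ⟨rfl, rfl⟩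
  · exact Or.inr ⟨rfl, rfl⟩
  · exact absurd h4 hexc

theorem indep_one_two {L : PadicAlgCl p → PadicAlgCl p} (hL : Pool.Agent.W245.PB.IsIwasawaLog p L)
    {a b : PadicAlgCl p} (ha0 : a ≠ 0) (hb0 : b ≠ 0) (ha : IsAlgebraic ℚ a) (hb : IsAlgebraic ℚ b)
    (h : LinearIndependent ℚ ![L a, L b]) : LinearIndependent (Qb p) ![1, L a, L b] := by
  rw [Fintype.linearIndependent_iff]
  intro g hg
  rw [Fin.sum_univ_three] at hg
  have hg' : (g 0 : PadicAlgCl p) * 1 + (g 1 : PadicAlgCl p) * L a + (g 2 : PadicAlgCl p) * L b = 0 := hg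
  have e : (fun i => L (![a, b] i)) = ![L a, L b] := by
    funext i
    fin_cases i <;> rfl
  have h2 := Pool.Agent.W245.PB.brumer hL (ι := Fin 2) ![a, b] (by
    intro i
    fin_cases i
    · exact ha0
    · exact hb0) (by
    intro i
    fin_cases i
    · exact ha
    · exact hb) (by
    rw [e]
    exact h) (g 0 : PadicAlgCl p) (mem_Qb.1 (g 0).2) ![(g 1 : PadicAlgCl p), (g 2 : PadicAlgCl p)] (by
    intro i
    fin_cases i
    · exact mem_Qb.1 (g 1).2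
    · exact mem_Qb.1 (g 2).2) (by
    rw [Fin.sum_univ_two]
    show (g 0 : PadicAlgCl p) + ((g 1 : PadicAlgCl p) * L a + (g 2 : PadicAlgCl p) * L b) = 0
    rw [← hg']
    ring)
  intro i
  fin_cases i
  · exact Subtype.ext h2.1
  · exact Subtype.ext (h2.2 0)
  · exact Subtype.ext (h2.2 1)

end field

end Pool.Agent.H512.CJ
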