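import Pool.Agent.H512.CJ.Core
import Pool.Graph.R_pool_sql_team_seeded_b677cdb8.E8helper92.PG.Near

/-!
# Matrices of conjugates
-/

set_option autoImplicit false

namespace Pool.Agent.H512.CJ

open Pool.Agent.X148.TR (Two MultE)
open Pool.Agent.E8helper92.PG (Qb mem_Qb LogForms logForms_galois log_galois)
open Pool.Agent.W245.PB (IsIwasawaLog)

variable {p : ℕ} [hp : Fact p.Prime] {K : IntermediateField ℚ_[p] (PadicAlgCl p)}
  {F : IntermediateField K (PadicAlgCl p)}

/-- Matrices of algebraic multiples of conjugates of one element. -/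
theorem matrix {V : Submodule (Qb p) (PadicAlgCl p)} (hV : Two V)
    (hσ : ∀ σ : PadicAlgCl p ≃ₐ[ℚ_[p]] PadicAlgCl p, ∀ v ∈ V, σ v ∈ V) [FiniteDimensional K F]
    (hab : ∀ g h : F ≃ₐ[K] F, g * h = h * g) {x : F} (hx : (x : PadicAlgCl p) ∈ V)
    (h1 : ∀ g : F ≃ₐ[K] F, g ≠ 1 → LinearIndependent (Qb p) ![(x : PadicAlgCl p), ((g x : F) : PadicAlgCl p)])
    (h2 : ∀ g : F ≃ₐ[K] F, g * g ≠ 1 → LinearIndependent (Qb p) ![(x : PadicAlgCl p),
      ((g x : F) : PadicAlgCl p), ((g (g x) : F) : PadicAlgCl p)])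
    (a b c d : F ≃ₐ[K] F) (α β γ δ : Qb p)
    (hodd : Odd (orderOf (a⁻¹ * d)) ∨ Odd (orderOf (b⁻¹ * c)))
    (hrow : LinearIndependent (Qb p) ![![α • ((a x : F) : PadicAlgCl p), β • ((b x : F) : PadicAlgCl p)],
      ![γ • ((c x : F) : PadicAlgCl p), δ • ((d x : F) : PadicAlgCl p)]])
    (hcol : LinearIndependent (Qb p) ![![α • ((a x : F) : PadicAlgCl p), γ • ((c x : F) : PadicAlgCl p)],
      ![β • ((b x : F) : PadicAlgCl p), δ • ((d x : F) : PadicAlgCl p)]]) :
    (α • ((a x : F) : PadicAlgCl p)) * (δ • ((d x : F) : PadicAlgCl p)) ≠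
      (β • ((b x : F) : PadicAlgCl p)) * (γ • ((c x : F) : PadicAlgCl p)) := by
  intro hdet
  rw [LinearIndependent.pair_iff] at hrow hcol
  have hx0 : x ≠ 0 := by
    rintro rfl
    have := (hrow 1 0 (by
      ext j
      fin_cases j <;> simp)).1
    exact one_ne_zero this
  have ne : ∀ g : F ≃ₐ[K] F, ((g x : F) : PadicAlgCl p) ≠ 0 := fun g e =>
    (map_ne_zero g).2 hx0 (Subtype.ext e)
  have sm : ∀ (c : Qb p) (z : PadicAlgCl p), c • z = (c : PadicAlgCl p) * z := fun c z => rfl
  simp only [sm] at hdet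
  -- no coefficient is zero
  have hα : α ≠ 0 := by
    rintro rfl
    have h0 : (β : PadicAlgCl p) * (γ : PadicAlgCl p) = 0 := by
      have h3 : (β : PadicAlgCl p) * (γ : PadicAlgCl p) * (((b x : F) : PadicAlgCl p) * ((c x : F) : PadicAlgCl p)) = 0 := by
        rw [← sub_eq_zero] at hdet
        have h4 : ((0 : Qb p) : PadicAlgCl p) = 0 := rfl
        rw [h4] at hdet
        linear_combination -hdet
      exact (mul_eq_zero.1 h3).resolve_right (mul_ne_zero (ne b) (ne c))
    rcases mul_eq_zero.1 h0 with h3 | h3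
    · have h5 : β = 0 := Subtype.ext h3
      have := (hrow 1 0 (by
        subst h5
        ext j
        fin_cases j <;> simp)).1
      exact one_ne_zero this
    · have h5 : γ = 0 := Subtype.ext h3
      have := (hcol 1 0 (by
        subst h5
        ext j
        fin_cases j <;> simp)).1
      exact one_ne_zero this
  have hδ : δ ≠ 0 := by
    rintro rfl
    have h0 : (β : PadicAlgCl p) * (γ : PadicAlgCl p) = 0 := by
      have h3 : (β : PadicAlgCl p) * (γ : PadicAlgCl p) * (((b x : F) : PadicAlgCl p) * ((c x : F) : PadicAlgCl p)) = 0 := by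
        rw [← sub_eq_zero] at hdet
        have h4 : ((0 : Qb p) : PadicAlgCl p) = 0 := rfl
        rw [h4] at hdet
        linear_combination -hdet
      exact (mul_eq_zero.1 h3).resolve_right (mul_ne_zero (ne b) (ne c))
    rcases mul_eq_zero.1 h0 with h3 | h3
    · have h5 : β = 0 := Subtype.ext h3
      have := (hcol 0 1 (by
        subst h5
        ext j
        fin_cases j <;> simp)).2
      exact one_ne_zero this
    · have h5 : γ = 0 := Subtype.ext h3
      have := (hrow 0 1 (by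
        subst h5
        ext j
        fin_cases j <;> simp)).2
      exact one_ne_zero this
  have hα' : (α : PadicAlgCl p) ≠ 0 := fun e => hα (Subtype.ext e)
  have hδ' : (δ : PadicAlgCl p) ≠ 0 := fun e => hδ (Subtype.ext e)
  have hβγ : (β : PadicAlgCl p) * (γ : PadicAlgCl p) ≠ 0 := by
    intro h0
    have h3 : (α : PadicAlgCl p) * (δ : PadicAlgCl p) * (((a x : F) : PadicAlgCl p) * ((d x : F) : PadicAlgCl p)) = 0 := by
      linear_combination hdet + (((b x : F) : PadicAlgCl p) * ((c x : F) : PadicAlgCl p)) * h0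
    exact mul_ne_zero (mul_ne_zero hα' hδ') (mul_ne_zero (ne a) (ne d)) h3
  -- the relation in `F`
  have hax : ∀ g : F ≃ₐ[K] F, g x ≠ 0 := fun g => (map_ne_zero g).2 hx0
  set κ : F := (b x * c x) / (a x * d x) with hκ
  have hκe : (κ : PadicAlgCl p) = (α : PadicAlgCl p) * δ / (β * γ) := by
    have : (κ : PadicAlgCl p) = ((b x : F) : PadicAlgCl p) * ((c x : F) : PadicAlgCl p) /
        (((a x : F) : PadicAlgCl p) * ((d x : F) : PadicAlgCl p)) := rfl
    rw [this, div_eq_div_iff (mul_ne_zero (ne a) (ne d)) hβγ]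
    linear_combination -hdet
  have hκa : IsAlgebraic ℚ (κ : PadicAlgCl p) := by
    rw [hκe]
    exact ((mem_Qb.1 α.2).mul (mem_Qb.1 δ.2)).mul (((mem_Qb.1 β.2).mul (mem_Qb.1 γ.2)).inv)
  have hrel : κ * (a x * d x) = b x * c x := by
    rw [hκ]
    exact div_mul_cancel₀ _ (mul_ne_zero (hax a) (hax d))
  have hrel' : a⁻¹ κ * (x * (a⁻¹ * d) x) = (a⁻¹ * b) x * (a⁻¹ * c) x := by
    have h3 : (a⁻¹ : F ≃ₐ[K] F) (κ * (a x * d x)) = (a⁻¹ : F ≃ₐ[K] F) (b x * c x) := by rw [hrel]
    rw [map_mul, map_mul, map_mul] at h3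
    have h4 : a⁻¹ (a x) = x := by
      show (a⁻¹ * a) x = x
      rw [inv_mul_cancel]
      rfl
    rw [h4] at h3
    exact h3
  have hfin := core hV hσ hab hx0 hx h1 h2 (a⁻¹ * d) (a⁻¹ * b) (a⁻¹ * c) (a⁻¹ κ) (alg_gal _ hκa) hrel' (by
    have e : (a⁻¹ * b)⁻¹ * (a⁻¹ * c) = b⁻¹ * c := by group
    rw [e]
    exact hodd)
  rcases hfin with ⟨h3, h4⟩ | ⟨h3, h4⟩
  · have hba : b = a := (inv_mul_eq_one.1 h3).symm
    have hdc : d = c := mul_left_cancel h4
    subst hba hdc
    -- the columns are dependent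
    have h5 : (α : PadicAlgCl p) * δ = β * γ := by
      have h6 : ((b x : F) : PadicAlgCl p) * ((d x : F) : PadicAlgCl p) ≠ 0 := mul_ne_zero (ne b) (ne d)
      apply mul_right_cancel₀ h6
      linear_combination hdet
    have hneg : ((-α : Qb p) : PadicAlgCl p) = -(α : PadicAlgCl p) := rfl
    have := (hcol β (-α) (by
      ext j
      fin_cases j
      · show (β : PadicAlgCl p) * ((α : PadicAlgCl p) * ((b x : F) : PadicAlgCl p)) +
          ((-α : Qb p) : PadicAlgCl p) * ((β : PadicAlgCl p) * ((b x : F) : PadicAlgCl p)) = 0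
        rw [hneg]
        ring
      · show (β : PadicAlgCl p) * ((γ : PadicAlgCl p) * ((d x : F) : PadicAlgCl p)) +
          ((-α : Qb p) : PadicAlgCl p) * ((δ : PadicAlgCl p) * ((d x : F) : PadicAlgCl p)) = 0
        rw [hneg]
        linear_combination (-((d x : F) : PadicAlgCl p)) * h5)).2
    exact hα (neg_eq_zero.1 this)
  · have hca : c = a := (inv_mul_eq_one.1 h3).symm
    have hdb : d = b := mul_left_cancel h4
    subst hca hdb
    have h5 : (α : PadicAlgCl p) * δ = β * γ := by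
      have h6 : ((c x : F) : PadicAlgCl p) * ((d x : F) : PadicAlgCl p) ≠ 0 := mul_ne_zero (ne c) (ne d)
      apply mul_right_cancel₀ h6
      linear_combination hdet
    have hneg : ((-α : Qb p) : PadicAlgCl p) = -(α : PadicAlgCl p) := rfl
    have := (hrow γ (-α) (by
      ext j
      fin_cases j
      · show (γ : PadicAlgCl p) * ((α : PadicAlgCl p) * ((c x : F) : PadicAlgCl p)) +
          ((-α : Qb p) : PadicAlgCl p) * ((γ : PadicAlgCl p) * ((c x : F) : PadicAlgCl p)) = 0
        rw [hneg]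
        ring
      · show (γ : PadicAlgCl p) * ((β : PadicAlgCl p) * ((d x : F) : PadicAlgCl p)) +
          ((-α : Qb p) : PadicAlgCl p) * ((δ : PadicAlgCl p) * ((d x : F) : PadicAlgCl p)) = 0
        rw [hneg]
        linear_combination (-((d x : F) : PadicAlgCl p)) * h5)).2
    exact hα (neg_eq_zero.1 this)

/-- The logarithm of an element of `F` is in `F`, with the logarithms of the conjugates as conjugates. -/
theorem log_lift {L : PadicAlgCl p → PadicAlgCl p} (hL : IsIwasawaLog p L) {α : F} (hα : α ≠ 0) :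
    ∃ x : F, (x : PadicAlgCl p) = L (α : PadicAlgCl p) ∧
      ∀ g : F ≃ₐ[K] F, ((g x : F) : PadicAlgCl p) = L ((g α : F) : PadicAlgCl p) := by
  have hα' : (α : PadicAlgCl p) ≠ 0 := fun e => hα (Subtype.ext e)
  have h1 : L (α : PadicAlgCl p) ∈ F.restrictScalars ℚ_[p] :=
    Pool.Agent.E8helper92.PG.log_mem_K hL (F.restrictScalars ℚ_[p]) hα' α.2
  refine ⟨⟨L (α : PadicAlgCl p), h1⟩, rfl, fun g => ?_⟩
  have := normal_K (p := p) (K := K)
  have h2 : ((g.liftNormal (PadicAlgCl p)).restrictScalars ℚ_[p]) (L (α : PadicAlgCl p)) =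
      ((g ⟨L (α : PadicAlgCl p), h1⟩ : F) : PadicAlgCl p) :=
    g.liftNormal_commutes (PadicAlgCl p) ⟨L (α : PadicAlgCl p), h1⟩
  have h3 : ((g.liftNormal (PadicAlgCl p)).restrictScalars ℚ_[p]) (α : PadicAlgCl p) =
      ((g α : F) : PadicAlgCl p) := g.liftNormal_commutes (PadicAlgCl p) α
  rw [← h2, log_galois hL _ hα', h3]

theorem indep_two {L : PadicAlgCl p → PadicAlgCl p} (hL : IsIwasawaLog p L) {a b : PadicAlgCl p}
    (ha0 : a ≠ 0) (hb0 : b ≠ 0) (ha : IsAlgebraic ℚ a) (hb : IsAlgebraic ℚ b)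
    (h : LinearIndependent ℚ ![L a, L b]) : LinearIndependent (Qb p) ![L a, L b] := by
  have e : ![L a, L b] = fun i => L (![a, b] i) := by
    funext i
    fin_cases i <;> rfl
  rw [e] at h ⊢
  refine Pool.Agent.E8helper92.PG.brumer_indep hL _ ?_ ?_ h
  · intro i
    fin_cases i
    · exact ha0
    · exact hb0
  · intro i
    fin_cases i
    · exact ha
    · exact hb

theorem indep_three {L : PadicAlgCl p → PadicAlgCl p} (hL : IsIwasawaLog p L) {a b c : PadicAlgCl p}
    (ha0 : a ≠ 0) (hb0 : b ≠ 0) (hc0 : c ≠ 0) (ha : IsAlgebraic ℚ a) (hb : IsAlgebraic ℚ b)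
    (hc : IsAlgebraic ℚ c) (h : LinearIndependent ℚ ![L a, L b, L c]) :
    LinearIndependent (Qb p) ![L a, L b, L c] := by
  have e : ![L a, L b, L c] = fun i => L (![a, b, c] i) := by
    funext i
    fin_cases i <;> rfl
  rw [e] at h ⊢
  refine Pool.Agent.E8helper92.PG.brumer_indep hL _ ?_ ?_ h
  · intro i
    fin_cases i
    · exact ha0
    · exact hb0
    · exact hc0
  · intro i
    fin_cases i
    · exact ha
    · exact hb
    · exact hc

end Pool.Agent.H512.CJ
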