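import Pool.Agent.H512.CJ.Comb
import Pool.Graph.R_pool_sql_team_seeded_64922ed1.X148.TR.Padic
import Pool.Graph.R_pool_sql_team_seeded_b677cdb8.E8helper92.PG.Gal
import Pool.Graph.R_pool_sql_team_seeded_b677cdb8.E8helper92.PG.Excl

/-!
# Products of two conjugates of a linear form in `p`-adic logarithms
-/

set_option autoImplicit false

namespace Pool.Agent.H512.CJ

open Pool.Agent.X148.TR (Two MultE)
open Pool.Agent.E8helper92.PG (Qb mem_Qb)

variable {p : ℕ} [hp : Fact p.Prime] {K : IntermediateField ℚ_[p] (PadicAlgCl p)}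
  {F : IntermediateField K (PadicAlgCl p)}

theorem alg_gal (g : F ≃ₐ[K] F) {z : F} (hz : IsAlgebraic ℚ (z : PadicAlgCl p)) :
    IsAlgebraic ℚ (g z : PadicAlgCl p) := by
  have h1 : IsAlgebraic ℚ z :=
    (isAlgebraic_algHom_iff (algebraMap F (PadicAlgCl p)).toRatAlgHom
      (algebraMap F (PadicAlgCl p)).injective).1 hz
  have h2 : IsAlgebraic ℚ (g z) := h1.algHom ((g : F →+* F).toRatAlgHom)
  exact h2.algHom ((algebraMap F (PadicAlgCl p)).toRatAlgHom)

variable (F) in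
/-- The units of `F` which are algebraic numbers. -/
noncomputable def QU : Subgroup Fˣ where
  carrier := {u | IsAlgebraic ℚ ((u : F) : PadicAlgCl p)}
  mul_mem' := by
    intro a b ha hb
    have : (((a * b : Fˣ) : F) : PadicAlgCl p) = ((a : F) : PadicAlgCl p) * ((b : F) : PadicAlgCl p) := rfl
    show IsAlgebraic ℚ _
    rw [this]
    exact ha.mul hb
  one_mem' := by
    show IsAlgebraic ℚ (((1 : Fˣ) : F) : PadicAlgCl p)
    have : (((1 : Fˣ) : F) : PadicAlgCl p) = 1 := rfl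
    rw [this]
    exact isAlgebraic_one
  inv_mem' := by
    intro a ha
    show IsAlgebraic ℚ (((a⁻¹ : Fˣ) : F) : PadicAlgCl p)
    have : (((a⁻¹ : Fˣ) : F) : PadicAlgCl p) = ((a : F) : PadicAlgCl p)⁻¹ := by
      rw [Units.val_inv_eq_inv_val]
      rfl
    rw [this]
    exact ha.inv

theorem mem_QU {u : Fˣ} : u ∈ QU F ↔ IsAlgebraic ℚ ((u : F) : PadicAlgCl p) := Iff.rfl

variable (F) in
/-- The units of `F` modulo the algebraic numbers, written additively. -/
abbrev WF : Type := Additive (Fˣ ⧸ QU F)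

theorem torsion_free (m : ℤ) (w : WF F) (hm : m ≠ 0) (h : m • w = 0) : w = 0 := by
  obtain ⟨u, hu⟩ := QuotientGroup.mk_surjective (Additive.toMul w)
  have hw : w = Additive.ofMul (QuotientGroup.mk u : Fˣ ⧸ QU F) := by
    rw [hu]
    rfl
  rw [hw] at h ⊢
  have h1 : (QuotientGroup.mk (u ^ m) : Fˣ ⧸ QU F) = 1 := h
  rw [QuotientGroup.eq_one_iff, mem_QU] at h1
  have h2 : (((u ^ m : Fˣ) : F) : PadicAlgCl p) = ((u : F) : PadicAlgCl p) ^ m := by
    rw [Units.val_zpow_eq_zpow_val]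
    exact map_zpow₀ (algebraMap F (PadicAlgCl p)) _ _
  rw [h2] at h1
  have h3 : IsAlgebraic ℚ ((u : F) : PadicAlgCl p) := by
    rcases Int.natAbs_eq m with hm' | hm'
    · rw [hm', zpow_natCast] at h1
      exact h1.of_pow (Int.natAbs_pos.2 hm)
    · rw [hm', zpow_neg, zpow_natCast] at h1
      have h4 := h1.inv
      rw [inv_inv] at h4
      exact h4.of_pow (Int.natAbs_pos.2 hm)
  have h4 : (QuotientGroup.mk u : Fˣ ⧸ QU F) = 1 := by
    rw [QuotientGroup.eq_one_iff, mem_QU]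
    exact h3
  rw [h4]
  rfl

/-- The class of a unit. -/
noncomputable def cl (u : Fˣ) : WF F := Additive.ofMul (QuotientGroup.mk u)

theorem cl_eq {u w : Fˣ} : cl u = cl w ↔
    IsAlgebraic ℚ (((u : F) : PadicAlgCl p)⁻¹ * ((w : F) : PadicAlgCl p)) := by
  have h1 : cl u = cl w ↔ (QuotientGroup.mk u : Fˣ ⧸ QU F) = QuotientGroup.mk w := Iff.rfl
  have h2 : (((u⁻¹ * w : Fˣ) : F) : PadicAlgCl p) = ((u : F) : PadicAlgCl p)⁻¹ * ((w : F) : PadicAlgCl p) := by
    rw [Units.val_mul, Units.val_inv_eq_inv_val]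
    rfl
  rw [h1, QuotientGroup.eq, mem_QU, h2]

theorem cl_mul (u w : Fˣ) : cl (u * w) = cl u + cl w := rfl

/-- The class of `g x`. -/
noncomputable def vv (x : Fˣ) (g : F ≃ₐ[K] F) : WF F := cl (Units.map (g : F →* F) x)

theorem vv_rel {x : Fˣ} {a b c d : F ≃ₐ[K] F} :
    vv x a + vv x b = vv x c + vv x d ↔
      IsAlgebraic ℚ (((a x : F) : PadicAlgCl p)⁻¹ * ((b x : F) : PadicAlgCl p)⁻¹ *
        (((c x : F) : PadicAlgCl p) * ((d x : F) : PadicAlgCl p))) := by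
  unfold vv
  rw [← cl_mul, ← cl_mul, cl_eq]
  have e : ∀ a b : F ≃ₐ[K] F, (((Units.map (a : F →* F) x * Units.map (b : F →* F) x : Fˣ) : F) : PadicAlgCl p)
      = ((a x : F) : PadicAlgCl p) * ((b x : F) : PadicAlgCl p) := fun a b => rfl
  rw [e, e, mul_inv]

theorem vv_eq {x : Fˣ} {a b : F ≃ₐ[K] F} :
    vv x a = vv x b ↔ IsAlgebraic ℚ (((a x : F) : PadicAlgCl p)⁻¹ * ((b x : F) : PadicAlgCl p)) := by
  unfold vv
  rw [cl_eq]
  rfl

theorem vv_shift {x : Fˣ} {a b c d : F ≃ₐ[K] F} (h : vv x a + vv x b = vv x c + vv x d) (g : F ≃ₐ[K] F) :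
    vv x (g * a) + vv x (g * b) = vv x (g * c) + vv x (g * d) := by
  rw [vv_rel] at h ⊢
  have h1 := alg_gal g (z := ((a x : F))⁻¹ * ((b x : F))⁻¹ * ((c x : F) * (d x : F))) h
  have h2 : ((g (((a x : F))⁻¹ * ((b x : F))⁻¹ * ((c x : F) * (d x : F))) : F) : PadicAlgCl p) =
      ((((g * a) x : F) : PadicAlgCl p)⁻¹ * (((g * b) x : F) : PadicAlgCl p)⁻¹ *
        ((((g * c) x : F) : PadicAlgCl p) * (((g * d) x : F) : PadicAlgCl p))) := by
    rw [map_mul, map_mul, map_inv₀, map_inv₀, map_mul]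
    rfl
  rwa [h2] at h1

end Pool.Agent.H512.CJ
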