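import Pool.Agent.H512.CJ.Logs

/-!
# Monomials in the conjugates of a linear form
-/

set_option autoImplicit false

namespace Pool.Agent.H512.CJ

open Pool.Agent.X148.TR (Two MultE)
open Pool.Agent.E8helper92.PG (Qb mem_Qb LogForms logForms_galois log_galois)
open Polynomial

section poly

/-- The shift of sequences. -/
noncomputable def S : Module.End ℚ (ℕ → ℚ) := LinearMap.funLeft ℚ ℚ (fun j => j + 1)

theorem S_pow (i : ℕ) (e : ℕ → ℚ) (j : ℕ) : (S ^ i) e j = e (j + i) := by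
  induction i generalizing j with
  | zero => rfl
  | succ i ih =>
    rw [pow_succ', Module.End.mul_apply]
    show (S ^ i) e (j + 1) = e (j + (i + 1))
    rw [ih]
    congr 1
    ring

theorem kill {e : ℕ → ℚ} {f Φ R Z : ℚ[X]} (hcop : IsCoprime Φ f) (hZ : Z ∣ R * Φ)
    (h1 : aeval S f e = 0) (h2 : aeval S Z e = 0) : aeval S R e = 0 := by
  obtain ⟨a, b, hab⟩ := hcop
  obtain ⟨c, hc⟩ := hZ
  have e1 : R = (a * c) * Z + (R * b) * f := by
    have : R = R * (a * Φ + b * f) := by rw [hab, mul_one]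
    calc R = R * (a * Φ + b * f) := this
      _ = a * (R * Φ) + (R * b) * f := by ring
      _ = a * (Z * c) + (R * b) * f := by rw [hc]
      _ = _ := by ring
  have g1 : aeval S ((a * c) * Z) e = 0 := by
    rw [map_mul, Module.End.mul_apply, h2, map_zero]
  have g2 : aeval S ((R * b) * f) e = 0 := by
    rw [map_mul, Module.End.mul_apply, h1, map_zero]
  rw [e1, map_add, LinearMap.add_apply, g1, g2, add_zero]

theorem aeval_S_sum (n : ℕ → ℤ) (m : ℕ) (e : ℕ → ℚ) (j : ℕ) :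
    aeval S (∑ i ∈ Finset.range m, C (n i : ℚ) * X ^ i) e j = ∑ i ∈ Finset.range m, (n i : ℚ) * e (j + i) := by
  rw [map_sum, LinearMap.sum_apply, Finset.sum_apply]
  apply Finset.sum_congr rfl
  intro i _
  rw [map_mul, aeval_C, map_pow, aeval_X, Module.End.mul_apply]
  show (n i : ℚ) * (S ^ i) e j = _
  rw [S_pow]

theorem cop {m : ℕ} (hm : 0 < m) (n : ℕ → ℤ) {ζ : ℂ} (hζ : IsPrimitiveRoot ζ m)
    (hn : ∑ i ∈ Finset.range m, (n i : ℂ) * ζ ^ i ≠ 0) :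
    IsCoprime (cyclotomic m ℚ) (∑ i ∈ Finset.range m, C (n i : ℚ) * X ^ i) := by
  rw [(cyclotomic.irreducible_rat hm).coprime_iff_not_dvd]
  rintro ⟨g, hg⟩
  apply hn
  have h1 : aeval ζ (∑ i ∈ Finset.range m, C (n i : ℚ) * X ^ i) = ∑ i ∈ Finset.range m, (n i : ℂ) * ζ ^ i := by
    rw [map_sum]
    apply Finset.sum_congr rfl
    intro i _
    rw [map_mul, aeval_C, map_pow, aeval_X]
    simp
  have h2 : aeval ζ (cyclotomic m ℚ) = 0 := by
    have h3 : (cyclotomic m ℂ).IsRoot ζ := by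
      have : NeZero (m : ℂ) := ⟨by exact_mod_cast hm.ne'⟩
      exact isRoot_cyclotomic_iff.2 hζ
    rw [aeval_def, eval₂_eq_eval_map, map_cyclotomic]
    exact h3
  rw [← h1, hg, map_mul, h2, zero_mul]

/-- Prime powers. -/
theorem recur_pp {q k : ℕ} (hq : q.Prime) (n : ℕ → ℤ) {ζ : ℂ} (hζ : IsPrimitiveRoot ζ (q ^ (k + 1)))
    (hn : ∑ i ∈ Finset.range (q ^ (k + 1)), (n i : ℂ) * ζ ^ i ≠ 0) {e : ℕ → ℚ}
    (he : ∀ j, e (j + q ^ (k + 1)) = e j)
    (h : ∀ j, ∑ i ∈ Finset.range (q ^ (k + 1)), (n i : ℚ) * e (j + i) = 0) (j : ℕ) :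
    e (j + q ^ k) = e j := by
  have hm : 0 < q ^ (k + 1) := pow_pos hq.pos _
  have h1 := kill (e := e) (R := X ^ (q ^ k) - 1) (Z := X ^ (q ^ (k + 1)) - 1) (cop hm n hζ hn) (by
    have := cyclotomic_prime_pow_mul_X_pow_sub_one ℚ q k (hn := ⟨hq⟩)
    rw [mul_comm, this]) (by
    funext j
    rw [aeval_S_sum, h]
    rfl) (by
    funext j
    rw [map_sub, map_pow, aeval_X, map_one, LinearMap.sub_apply, Pi.sub_apply, S_pow, he]
    exact sub_self _)
  have h2 := congrFun h1 j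
  rw [map_sub, map_pow, aeval_X, map_one, LinearMap.sub_apply, Pi.sub_apply, S_pow] at h2
  exact sub_eq_zero.1 h2

theorem dvd_two {m a b : ℕ} (hm : 0 < m) (ha : 0 < a) (hb : 0 < b)
    (hab : ∀ d, d ∣ m → d ≠ m → d ∣ a ∨ d ∣ b) :
    (X ^ m - 1 : ℚ[X]) ∣ (X ^ a - 1) * (X ^ b - 1) * cyclotomic m ℚ := by
  classical
  rw [← prod_cyclotomic_eq_X_pow_sub_one hm, ← prod_cyclotomic_eq_X_pow_sub_one ha,
    ← prod_cyclotomic_eq_X_pow_sub_one hb, ← Nat.insert_self_properDivisors hm.ne',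
    Finset.prod_insert Nat.self_notMem_properDivisors, mul_comm]
  apply mul_dvd_mul_right
  rw [← Finset.prod_union_inter]
  apply Dvd.dvd.mul_right
  apply Finset.prod_dvd_prod_of_subset
  intro d hd
  rw [Nat.mem_properDivisors] at hd
  rw [Finset.mem_union, Nat.mem_divisors, Nat.mem_divisors]
  rcases hab d hd.1 hd.2.ne with h | h
  · exact Or.inl ⟨h, ha.ne'⟩
  · exact Or.inr ⟨h, hb.ne'⟩

/-- Two primes. -/
theorem recur_two {m a b : ℕ} (hm : 0 < m) (ha : 0 < a) (hb : 0 < b)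
    (hab : ∀ d, d ∣ m → d ≠ m → d ∣ a ∨ d ∣ b) (n : ℕ → ℤ) {ζ : ℂ} (hζ : IsPrimitiveRoot ζ m)
    (hn : ∑ i ∈ Finset.range m, (n i : ℂ) * ζ ^ i ≠ 0) {e : ℕ → ℚ}
    (he : ∀ j, e (j + m) = e j)
    (h : ∀ j, ∑ i ∈ Finset.range m, (n i : ℚ) * e (j + i) = 0) (j : ℕ) :
    e j + e (j + (a + b)) = e (j + a) + e (j + b) := by
  have h1 := kill (e := e) (R := (X ^ a - 1) * (X ^ b - 1)) (Z := X ^ m - 1) (cop hm n hζ hn)
    (dvd_two hm ha hb hab) (by
    funext j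
    rw [aeval_S_sum, h]
    rfl) (by
    funext j
    rw [map_sub, map_pow, aeval_X, map_one, LinearMap.sub_apply, Pi.sub_apply, S_pow, he]
    exact sub_self _)
  have h3 : ((X ^ a - 1) * (X ^ b - 1) : ℚ[X]) = X ^ (a + b) - X ^ a - X ^ b + 1 := by
    rw [pow_add]
    ring
  rw [h3] at h1
  have h2 := congrFun h1 j
  rw [map_add, map_sub, map_sub, map_pow, map_pow, map_pow, aeval_X, map_one, LinearMap.add_apply,
    LinearMap.sub_apply, LinearMap.sub_apply, Pi.add_apply, Pi.sub_apply, Pi.sub_apply, S_pow, S_pow, S_pow] at h2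
  have h4 : e (j + (a + b)) - e (j + a) - e (j + b) + e j = 0 := h2
  linarith

end poly

section module

variable {W : Type*} [AddCommGroup W]

/-- Functionals on a finite family of vectors. -/
theorem functional {ι : Type*} [Fintype ι] (htf : ∀ (m : ℤ) (w : W), m ≠ 0 → m • w = 0 → w = 0) (v : ι → W)
    {κ : Type*} [Fintype κ] (c : κ → ℤ) (d : κ → ι) (hcd : ∑ i, c i • v (d i) ≠ 0) :
    ∃ F : ι → ℤ, ∑ i, c i * F (d i) ≠ 0 ∧
      ∀ {κ' : Type} [Fintype κ'] (c' : κ' → ℤ) (d' : κ' → ι), ∑ i, c' i • v (d' i) = 0 →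
        ∑ i, c' i * F (d' i) = 0 := by
  classical
  set Λ : Submodule ℤ (ι → ℤ) := LinearMap.ker (Fintype.linearCombination ℤ v) with hΛ
  have hmem : ∀ n, n ∈ Λ ↔ Fintype.linearCombination ℤ v n = 0 := fun n => by
    rw [hΛ, LinearMap.mem_ker]
  have hsum : ∀ {κ : Type _} [Fintype κ] (c : κ → ℤ) (d : κ → ι),
      Fintype.linearCombination ℤ v (∑ i, c i • (Pi.single (d i) (1 : ℤ) : ι → ℤ)) = ∑ i, c i • v (d i) := by
    intro κ _ c d
    rw [map_sum]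
    apply Finset.sum_congr rfl
    intro i _
    rw [map_smul, Fintype.linearCombination_apply_single, one_smul]
  obtain ⟨f, h1, h2⟩ := exists_functional Λ (fun m n hm hn => by
    rw [hmem] at hn ⊢
    rw [map_smul] at hn
    exact htf m _ hm hn) (v := ∑ i, c i • (Pi.single (d i) (1 : ℤ) : ι → ℤ)) (by
      rw [hmem, hsum]
      exact hcd)
  have hf : ∀ {κ : Type _} [Fintype κ] (c : κ → ℤ) (d : κ → ι),
      f (∑ i, c i • (Pi.single (d i) (1 : ℤ) : ι → ℤ)) = ∑ i, c i * f (Pi.single (d i) 1) := by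
    intro κ _ c d
    rw [map_sum]
    apply Finset.sum_congr rfl
    intro i _
    rw [map_smul, smul_eq_mul]
  refine ⟨fun g => f (Pi.single g 1), ?_, ?_⟩
  · rw [← hf]
    exact h2
  · intro κ' _ c' d' h
    rw [← map_one (RingHom.id ℤ)]
    have h3 := h1 (∑ i, c' i • (Pi.single (d' i) (1 : ℤ) : ι → ℤ)) (by
      rw [hmem, map_sum, ← h]
      apply Finset.sum_congr rfl
      intro i _
      rw [map_smul, Fintype.linearCombination_apply_single, one_smul])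
    rw [map_sum] at h3
    rw [← h3]
    apply Finset.sum_congr rfl
    intro i _
    rw [map_smul, smul_eq_mul]
    rfl

/-- Sequences with a period. -/
theorem seq_functional (htf : ∀ (m : ℤ) (w : W), m ≠ 0 → m • w = 0 → w = 0) {m : ℕ} (hm : 0 < m) {v : ℕ → W}
    (hv : ∀ j, v (j + m) = v j) {κ : Type*} [Fintype κ] (c : κ → ℤ) (d : κ → ℕ)
    (hcd : ∑ i, c i • v (d i) ≠ 0) (n : ℕ → ℤ) (hn : ∀ j, ∑ i ∈ Finset.range m, n i • v (j + i) = 0) :
    ∃ e : ℕ → ℚ, (∀ j, e (j + m) = e j) ∧ (∀ j, ∑ i ∈ Finset.range m, (n i : ℚ) * e (j + i) = 0) ∧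
      ∑ i, (c i : ℚ) * e (d i) ≠ 0 := by
  have hmod : ∀ j, v j = v (j % m) := by
    intro j
    have h1 : ∀ l j, v (j + m * l) = v j := by
      intro l
      induction l with
      | zero => intro j; rfl
      | succ l ih =>
        intro j
        rw [mul_add, mul_one, ← add_assoc, hv, ih]
    conv_lhs => rw [← Nat.mod_add_div j m]
    rw [h1]
  obtain ⟨F, h1, h2⟩ := functional htf (fun i : Fin m => v i) c (fun i => ⟨d i % m, Nat.mod_lt _ hm⟩) (by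
    intro h0
    apply hcd
    rw [← h0]
    apply Finset.sum_congr rfl
    intro i _
    rw [hmod (d i)])
  refine ⟨fun j => F ⟨j % m, Nat.mod_lt _ hm⟩, ?_, ?_, ?_⟩
  · intro j
    simp only [Nat.add_mod_right]
  · intro j
    have h3 := h2 (κ' := Fin m) (fun i => n i) (fun i => ⟨(j + i) % m, Nat.mod_lt _ hm⟩) (by
      have h4 := hn j
      rw [Finset.sum_range] at h4
      rw [← h4]
      apply Finset.sum_congr rfl
      intro i _
      rw [hmod (j + i)])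
    rw [Finset.sum_range]
    have h5 : ((∑ i : Fin m, n i * F ⟨(j + i) % m, Nat.mod_lt _ hm⟩ : ℤ) : ℚ) = 0 := by
      rw [h3]
      rfl
    rw [← h5]
    push_cast
    rfl
  · intro h0
    apply h1
    have h5 : ((∑ i, c i * F ⟨d i % m, Nat.mod_lt _ hm⟩ : ℤ) : ℚ) = 0 := by
      rw [← h0]
      push_cast
      rfl
    exact_mod_cast h5

theorem seq_pp (htf : ∀ (m : ℤ) (w : W), m ≠ 0 → m • w = 0 → w = 0) {q k : ℕ} (hq : q.Prime) {v : ℕ → W}
    (hv : ∀ j, v (j + q ^ (k + 1)) = v j) (n : ℕ → ℤ)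
    (hnv : ∀ j, ∑ i ∈ Finset.range (q ^ (k + 1)), n i • v (j + i) = 0) {ζ : ℂ}
    (hζ : IsPrimitiveRoot ζ (q ^ (k + 1)))
    (hn : ∑ i ∈ Finset.range (q ^ (k + 1)), (n i : ℂ) * ζ ^ i ≠ 0) : v (q ^ k) = v 0 := by
  by_contra hne
  obtain ⟨e, h1, h2, h3⟩ := seq_functional htf (pow_pos hq.pos _) hv ![1, -1] ![q ^ k, 0] (by
    rw [Fin.sum_univ_two]
    simp only [Matrix.cons_val_zero, Matrix.cons_val_one, one_smul, neg_smul]
    rw [← sub_eq_add_neg]
    exact sub_ne_zero.2 hne) n hnv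
  apply h3
  have h4 := recur_pp hq n hζ hn h1 h2 0
  rw [zero_add] at h4
  rw [Fin.sum_univ_two]
  simp only [Matrix.cons_val_zero, Matrix.cons_val_one]
  rw [h4]
  push_cast
  ring

theorem seq_two (htf : ∀ (m : ℤ) (w : W), m ≠ 0 → m • w = 0 → w = 0) {m a b : ℕ} (hm : 0 < m) (ha : 0 < a)
    (hb : 0 < b) (hab : ∀ d, d ∣ m → d ≠ m → d ∣ a ∨ d ∣ b) {v : ℕ → W}
    (hv : ∀ j, v (j + m) = v j) (n : ℕ → ℤ)
    (hnv : ∀ j, ∑ i ∈ Finset.range m, n i • v (j + i) = 0) {ζ : ℂ} (hζ : IsPrimitiveRoot ζ m)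
    (hn : ∑ i ∈ Finset.range m, (n i : ℂ) * ζ ^ i ≠ 0) : v 0 + v (a + b) = v a + v b := by
  by_contra hne
  obtain ⟨e, h1, h2, h3⟩ := seq_functional htf hm hv ![1, 1, -1, -1] ![0, a + b, a, b] (by
    rw [Fin.sum_univ_four]
    intro h0
    apply hne
    have h5 : (1 : ℤ) • v 0 + (1 : ℤ) • v (a + b) + (-1 : ℤ) • v a + (-1 : ℤ) • v b = 0 := h0
    rw [one_smul, one_smul, neg_one_smul, neg_one_smul] at h5
    rw [← sub_eq_zero, ← h5]
    abel) n hnv
  apply h3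
  have h4 := recur_two hm ha hb hab n hζ hn h1 h2 0
  rw [zero_add, zero_add, zero_add] at h4
  rw [Fin.sum_univ_four]
  show ((1 : ℤ) : ℚ) * e 0 + ((1 : ℤ) : ℚ) * e (a + b) + ((-1 : ℤ) : ℚ) * e a + ((-1 : ℤ) : ℚ) * e b = 0
  push_cast
  linarith

end module

section field

variable {p : ℕ} [hp : Fact p.Prime] {K : IntermediateField ℚ_[p] (PadicAlgCl p)}
  {F : IntermediateField K (PadicAlgCl p)}

theorem cl_sum {ι : Type*} (s : Finset ι) (n : ι → ℤ) (u : ι → Fˣ) :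
    ∑ i ∈ s, n i • cl (u i) = cl (∏ i ∈ s, u i ^ n i) := by
  classical
  induction s using Finset.induction_on with
  | empty =>
    rw [Finset.sum_empty, Finset.prod_empty]
    rfl
  | insert a s ha ih =>
    rw [Finset.sum_insert ha, Finset.prod_insert ha, cl_mul, ih]
    rfl

theorem cl_eq_zero {u : Fˣ} : cl u = 0 ↔ IsAlgebraic ℚ ((u : F) : PadicAlgCl p) := by
  rw [← mem_QU, ← QuotientGroup.eq_one_iff]
  rfl

theorem mono_rel {x : F} (hx0 : x ≠ 0) (t : F ≃ₐ[K] F) (m : ℕ) (n : ℕ → ℤ)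
    (halg : IsAlgebraic ℚ (∏ i ∈ Finset.range m, ((((t ^ i) x : F) : PadicAlgCl p)) ^ n i)) (j : ℕ) :
    ∑ i ∈ Finset.range m, n i • vv (Units.mk0 x hx0) (t ^ (j + i)) = 0 := by
  have e1 : ∀ g : F ≃ₐ[K] F, vv (Units.mk0 x hx0) g = cl (Units.map (g : F →* F) (Units.mk0 x hx0)) :=
    fun g => rfl
  simp only [e1]
  rw [cl_sum, cl_eq_zero]
  have h1 : IsAlgebraic ℚ (((∏ i ∈ Finset.range m, ((t ^ i) x) ^ n i : F)) : PadicAlgCl p) := by
    have e2 : (((∏ i ∈ Finset.range m, ((t ^ i) x) ^ n i : F)) : PadicAlgCl p) =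
        ∏ i ∈ Finset.range m, ((((t ^ i) x : F) : PadicAlgCl p)) ^ n i := by
      have := map_prod (algebraMap F (PadicAlgCl p)) (fun i => ((t ^ i) x) ^ n i) (Finset.range m)
      rw [show ((∏ i ∈ Finset.range m, ((t ^ i) x) ^ n i : F) : PadicAlgCl p) =
        algebraMap F (PadicAlgCl p) (∏ i ∈ Finset.range m, ((t ^ i) x) ^ n i) from rfl, this]
      apply Finset.prod_congr rfl
      intro i _
      rw [map_zpow₀]
      rfl
    rw [e2]
    exact halg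
  have h2 := alg_gal (t ^ j) h1
  have e3 : (t ^ j) (∏ i ∈ Finset.range m, ((t ^ i) x) ^ n i) = ((∏ i ∈ Finset.range m,
      (Units.map ((t ^ (j + i) : F ≃ₐ[K] F) : F →* F) (Units.mk0 x hx0)) ^ n i : Fˣ) : F) := by
    rw [map_prod, Units.coe_prod]
    apply Finset.prod_congr rfl
    intro i _
    rw [map_zpow₀, Units.val_zpow_eq_zpow_val, pow_add]
    rfl
  rw [e3] at h2
  exact h2

theorem vv_period {x : F} (hx0 : x ≠ 0) {t : F ≃ₐ[K] F} {m : ℕ} (ht : t ^ m = 1) (j : ℕ) :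
    vv (Units.mk0 x hx0) (t ^ (j + m)) = vv (Units.mk0 x hx0) (t ^ j) := by
  rw [pow_add, ht, mul_one]

theorem mono_pp {x : F} {t : F ≃ₐ[K] F} {q k : ℕ} (hq : q.Prime) (ht : t ^ (q ^ (k + 1)) = 1) (n : ℕ → ℤ)
    {ζ : ℂ} (hζ : IsPrimitiveRoot ζ (q ^ (k + 1)))
    (hn : ∑ i ∈ Finset.range (q ^ (k + 1)), (n i : ℂ) * ζ ^ i ≠ 0)
    (hli : LinearIndependent (Qb p) ![(x : PadicAlgCl p), (((t ^ (q ^ k)) x : F) : PadicAlgCl p)]) :
    Transcendental ℚ (∏ i ∈ Finset.range (q ^ (k + 1)), ((((t ^ i) x : F) : PadicAlgCl p)) ^ n i) := by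
  intro halg
  have hx0 : x ≠ 0 := by
    rintro rfl
    exact hli.ne_zero 0 rfl
  have h1 := seq_pp torsion_free hq (v := fun j => vv (Units.mk0 x hx0) (t ^ j)) (vv_period hx0 ht) n
    (mono_rel hx0 t _ n halg) hζ hn
  simp only [pow_zero] at h1
  have h2 := vv_eq.1 h1.symm
  exact dep_of_alg hx0 h2 hli

theorem mono_two {V : Submodule (Qb p) (PadicAlgCl p)} (hV : Two V)
    (hσ : ∀ σ : PadicAlgCl p ≃ₐ[ℚ_[p]] PadicAlgCl p, ∀ v ∈ V, σ v ∈ V) {x : F} (hx : (x : PadicAlgCl p) ∈ V)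
    {t : F ≃ₐ[K] F} {m a b : ℕ} (hm : 0 < m) (ha : 0 < a) (hb : 0 < b)
    (hab : ∀ d, d ∣ m → d ≠ m → d ∣ a ∨ d ∣ b) (ht : t ^ m = 1) (n : ℕ → ℤ) {ζ : ℂ}
    (hζ : IsPrimitiveRoot ζ m) (hn : ∑ i ∈ Finset.range m, (n i : ℂ) * ζ ^ i ≠ 0)
    (hli : LinearIndependent (Qb p) ![(x : PadicAlgCl p), (((t ^ b) x : F) : PadicAlgCl p)])
    (hli3 : LinearIndependent (Qb p) ![(x : PadicAlgCl p), (((t ^ a) x : F) : PadicAlgCl p),
      (((t ^ a) ((t ^ a) x) : F) : PadicAlgCl p)]) :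
    Transcendental ℚ (∏ i ∈ Finset.range m, ((((t ^ i) x : F) : PadicAlgCl p)) ^ n i) := by
  intro halg
  have hx0 : x ≠ 0 := by
    rintro rfl
    exact hli.ne_zero 0 rfl
  have h1 := seq_two torsion_free hm ha hb hab (v := fun j => vv (Units.mk0 x hx0) (t ^ j)) (vv_period hx0 ht) n
    (mono_rel hx0 t _ n halg) hζ hn
  simp only [pow_zero] at h1
  rw [vv_rel] at h1
  have ne : ∀ g : F ≃ₐ[K] F, g x ≠ 0 := fun g => (map_ne_zero g).2 hx0
  refine six hV hσ hx0 hx (t ^ a) (t ^ b) (x⁻¹ * ((t ^ (a + b)) x)⁻¹ * ((t ^ a) x * (t ^ b) x)) h1 ?_ hli hli3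
  have e : (t ^ a) ((t ^ b) x) = (t ^ (a + b)) x := by
    rw [pow_add]
    rfl
  rw [e]
  have h2 := ne (t ^ (a + b))
  field_simp

end field

end Pool.Agent.H512.CJ
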